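import Mathlib

/-! The integer matrices of multiplication by a generator of a power of a prime ideal above `p` in
a quadratic order, and the pairs `(z, e)` with `z ≡ e y` modulo powers of `p`. -/

set_option autoImplicit false

open Finset Filter Topology

namespace Pool.Agent.U773.PA

/-- `y` is a root of `T^2 - t T + n` in the `p`-adic integers, `α + β Y` has norm `s p^h` and
its image is divisible by `p^h`. -/
structure Gen (p : ℕ) [Fact p.Prime] (y : ℤ_[p]) (t n : ℤ) where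
  h : ℕ
  hpos : 0 < h
  α : ℤ
  β : ℤ
  s : ℤ
  hs : s = 1 ∨ s = -1
  norm : α ^ 2 + t * α * β + n * β ^ 2 = s * p ^ h
  dvd : (p : ℤ_[p]) ^ h ∣ (α : ℤ_[p]) + β * y

variable {p : ℕ} [Fact p.Prime] {y : ℤ_[p]} {t n : ℤ}

/-- multiplication by the generator -/
def Gen.T (G : Gen p y t n) : Matrix (Fin 2) (Fin 2) ℤ :=
  !![G.α, n * G.β; -G.β, G.α + t * G.β]

lemma Gen.det_T (G : Gen p y t n) : G.T.det = G.s * p ^ G.h := by
  unfold Gen.T
  rw [Matrix.det_fin_two_of, ← G.norm]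
  ring

lemma Gen.det_pow (G : Gen p y t n) (κ : ℕ) : |(((G.T ^ κ).det : ℤ) : ℝ)| = (p : ℝ) ^ (G.h * κ) := by
  rw [Matrix.det_pow, G.det_T]
  push_cast
  rw [abs_pow, abs_mul, abs_of_nonneg (by positivity : (0 : ℝ) ≤ (p : ℝ) ^ G.h)]
  have : |((G.s : ℤ) : ℝ)| = 1 := by
    rcases G.hs with h | h <;> rw [h] <;> simp
  rw [this, one_mul, ← pow_mul]

/-- pairs in the powers of the ideal -/
lemma Gen.orb (G : Gen p y t n) (hy : y ^ 2 = t * y - n) : ∀ (κ : ℕ) (z e : ℤ),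
    (p : ℤ_[p]) ^ (G.h * κ) ∣ (z : ℤ_[p]) - e * y →
    ∃ w : Fin 2 → ℤ, (G.T ^ κ).mulVec w = ![z, e] := by
  have hp : (p : ℤ_[p]) ≠ 0 := by
    exact_mod_cast (Fact.out : p.Prime).ne_zero
  intro κ
  induction κ with
  | zero =>
    intro z e _
    exact ⟨![z, e], by simp⟩
  | succ κ ih =>
    intro z e hze
    have hdiv : (p : ℤ_[p]) ^ G.h ∣ (z : ℤ_[p]) - e * y :=
      (pow_dvd_pow _ (by rw [Nat.mul_succ]; omega)).trans hze
    obtain ⟨c, hc⟩ := hdiv
    obtain ⟨c', hc'⟩ := G.dvd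
    have d1 : ((p ^ G.h : ℕ) : ℤ) ∣ z * (G.α + t * G.β) - n * e * G.β := by
      have : (p : ℤ_[p]) ^ G.h ∣ ((z * (G.α + t * G.β) - n * e * G.β : ℤ) : ℤ_[p]) := by
        refine ⟨c * (G.α + t * G.β) + e * y * c', ?_⟩
        push_cast
        linear_combination (G.α + t * G.β : ℤ_[p]) * hc + (e : ℤ_[p]) * y * hc' -
          (e : ℤ_[p]) * G.β * hy
      have h2 := (PadicInt.pow_p_dvd_int_iff _ _).1 this
      exact_mod_cast h2
    have d2 : ((p ^ G.h : ℕ) : ℤ) ∣ z * G.β + e * G.α := by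
      have : (p : ℤ_[p]) ^ G.h ∣ ((z * G.β + e * G.α : ℤ) : ℤ_[p]) := by
        refine ⟨c * G.β + e * c', ?_⟩
        push_cast
        linear_combination (G.β : ℤ_[p]) * hc + (e : ℤ_[p]) * hc'
      have h2 := (PadicInt.pow_p_dvd_int_iff _ _).1 this
      exact_mod_cast h2
    obtain ⟨z1, hz1⟩ := d1
    obtain ⟨e1, he1⟩ := d2
    have hs2 : G.s * G.s = 1 := by rcases G.hs with h | h <;> rw [h] <;> norm_num
    push_cast at hz1 he1
    have hpZ : ((p : ℤ) ^ G.h) ≠ 0 := by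
      have : (p : ℤ) ≠ 0 := by exact_mod_cast (Fact.out : p.Prime).ne_zero
      positivity
    have ez : z = G.α * (G.s * z1) + n * G.β * (G.s * e1) := by
      apply mul_left_cancel₀ hpZ
      linear_combination (G.s * G.α) * hz1 + (G.s * n * G.β) * he1 + (-(G.s * z)) * G.norm -
        (p : ℤ) ^ G.h * z * hs2
    have ee : e = -G.β * (G.s * z1) + (G.α + t * G.β) * (G.s * e1) := by
      apply mul_left_cancel₀ hpZ
      linear_combination (-(G.s * G.β)) * hz1 + (G.s * (G.α + t * G.β)) * he1 +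
        (-(G.s * e)) * G.norm - (p : ℤ) ^ G.h * e * hs2
    have hred : (p : ℤ_[p]) ^ (G.h * κ) ∣ ((G.s * z1 : ℤ) : ℤ_[p]) - ((G.s * e1 : ℤ) : ℤ_[p]) * y := by
      obtain ⟨c2, hc2⟩ := hze
      refine ⟨(G.s : ℤ_[p]) * c2 * (G.α + t * G.β - G.β * y), ?_⟩
      apply mul_left_cancel₀ (pow_ne_zero G.h hp)
      have hz1' : (z : ℤ_[p]) * (G.α + t * G.β) - n * e * G.β = (p : ℤ_[p]) ^ G.h * z1 := by
        exact_mod_cast congrArg (Int.cast : ℤ → ℤ_[p]) hz1
      have he1' : (z : ℤ_[p]) * G.β + e * G.α = (p : ℤ_[p]) ^ G.h * e1 := by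
        exact_mod_cast congrArg (Int.cast : ℤ → ℤ_[p]) he1
      have e3 : (p : ℤ_[p]) ^ G.h * ((p : ℤ_[p]) ^ (G.h * κ) * ((G.s : ℤ_[p]) * c2 *
          (G.α + t * G.β - G.β * y))) = (G.s : ℤ_[p]) * ((p : ℤ_[p]) ^ (G.h * (κ + 1)) * c2) *
          (G.α + t * G.β - G.β * y) := by
        rw [Nat.mul_succ, pow_add]
        ring
      rw [e3, ← hc2]
      push_cast
      linear_combination (-(G.s : ℤ_[p])) * hz1' + (G.s : ℤ_[p]) * y * he1' -
        (G.s : ℤ_[p]) * e * G.β * hy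
    obtain ⟨w, hw⟩ := ih (G.s * z1) (G.s * e1) hred
    refine ⟨w, ?_⟩
    rw [pow_succ', ← Matrix.mulVec_mulVec, hw]
    unfold Gen.T
    funext i
    fin_cases i
    · simp [Matrix.mulVec, dotProduct, Fin.sum_univ_two]
      linarith [ez]
    · simp [Matrix.mulVec, dotProduct, Fin.sum_univ_two]
      linarith [ee]

/-- the eigenforms -/
lemma Gen.eig (G : Gen p y t n) {O : Type} [CommRing O] (Y : O) (hY : Y ^ 2 = t * Y - n) :
    ∀ κ : ℕ, ((((G.T ^ κ) 0 0 : ℤ) : O) - Y * ((G.T ^ κ) 1 0 : ℤ) = (G.α + G.β * Y) ^ κ) ∧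
      ((((G.T ^ κ) 0 1 : ℤ) : O) - Y * ((G.T ^ κ) 1 1 : ℤ) = -Y * (G.α + G.β * Y) ^ κ) := by
  intro κ
  induction κ with
  | zero => simp
  | succ κ ih =>
    obtain ⟨h1, h2⟩ := ih
    have e : ∀ i j, (G.T ^ (κ + 1)) i j = (G.T ^ κ) i 0 * G.T 0 j + (G.T ^ κ) i 1 * G.T 1 j := by
      intro i j
      rw [pow_succ, Matrix.mul_apply, Fin.sum_univ_two]
    rw [e, e, e, e]
    have t00 : G.T 0 0 = G.α := rfl
    have t01 : G.T 0 1 = n * G.β := rfl
    have t10 : G.T 1 0 = -G.β := rfl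
    have t11 : G.T 1 1 = G.α + t * G.β := rfl
    rw [t00, t01, t10, t11]
    push_cast
    constructor
    · rw [pow_succ]
      linear_combination (G.α : O) * h1 - (G.β : O) * h2
    · rw [pow_succ]
      linear_combination (n * G.β : O) * h1 + (G.α + t * G.β : O) * h2 +
        (G.β : O) * (G.α + G.β * Y) ^ κ * hY

end Pool.Agent.U773.PA
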