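import Mathlib
import Pool.Agent.U773.PA.Orb

/-! A power of the prime ideal above `p` given by an unramified root in the `p`-adic integers is
principal. -/

set_option autoImplicit false

open Finset

namespace Pool.Agent.U773.PA

variable {p : ℕ} [hp : Fact p.Prime] {y : ℤ_[p]} {t n : ℤ}

/-- the norm form -/
def nrm (t n z e : ℤ) : ℤ := z ^ 2 - t * z * e + n * e ^ 2

lemma nrm_padic (hy : y ^ 2 = t * y - n) (z e : ℤ) :
    ((nrm t n z e : ℤ) : ℤ_[p]) = ((z : ℤ_[p]) - e * y) * (z - e * (t - y)) := by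
  unfold nrm
  push_cast
  linear_combination (e : ℤ_[p]) ^ 2 * hy

lemma nrm_ne (hroot : ∀ z : ℤ, z ^ 2 ≠ t * z - n) {z e : ℤ} (h : z ≠ 0 ∨ e ≠ 0) :
    nrm t n z e ≠ 0 := by
  intro h0
  unfold nrm at h0
  by_cases he : e = 0
  · rw [he] at h0
    have : z ^ 2 = 0 := by linear_combination h0
    rcases h with h | h
    · exact h (pow_eq_zero_iff (two_ne_zero) |>.1 this)
    · exact h he
  · -- a rational root is an integer
    have hd : e ∣ z := by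
      -- use that `z/e` is integral
      have h2 : IsIntegral ℤ ((z : ℚ) / e) := by
        refine ⟨Polynomial.X ^ 2 - Polynomial.C t * Polynomial.X + Polynomial.C n, by monicity!, ?_⟩
        have heQ : (e : ℚ) ≠ 0 := by exact_mod_cast he
        rw [Polynomial.eval₂_add, Polynomial.eval₂_sub, Polynomial.eval₂_mul,
          Polynomial.eval₂_pow, Polynomial.eval₂_X, Polynomial.eval₂_C, Polynomial.eval₂_C]
        simp only [algebraMap_int_eq, eq_intCast]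
        have h0Q : (z : ℚ) ^ 2 - t * z * e + n * e ^ 2 = 0 := by exact_mod_cast h0
        field_simp
        linear_combination h0Q
      obtain ⟨m, hm⟩ := IsIntegrallyClosed.isIntegral_iff.1 h2
      refine ⟨m, ?_⟩
      have heQ : (e : ℚ) ≠ 0 := by exact_mod_cast he
      have h3 : (m : ℚ) = (z : ℚ) / e := by simpa using hm
      rw [eq_div_iff heQ] at h3
      have h4 : (z : ℚ) = e * m := by rw [← h3]; ring
      exact_mod_cast h4
    obtain ⟨m, hm⟩ := hd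
    apply hroot m
    rw [hm] at h0
    have h5 : e ^ 2 * (m ^ 2 - t * m + n) = 0 := by linear_combination h0
    rcases mul_eq_zero.1 h5 with h6 | h6
    · exact absurd (pow_eq_zero_iff (two_ne_zero) |>.1 h6) he
    · linear_combination h6

lemma dvd_int {k : ℕ} {m : ℤ} (h : (p : ℤ_[p]) ^ k ∣ ((m : ℤ) : ℤ_[p])) : (p : ℤ) ^ k ∣ m := by
  have := (PadicInt.pow_p_dvd_int_iff k m).1 h
  exact_mod_cast this

lemma int_dvd {k : ℕ} {m : ℤ} (h : (p : ℤ) ^ k ∣ m) : (p : ℤ_[p]) ^ k ∣ ((m : ℤ) : ℤ_[p]) :=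
  (PadicInt.pow_p_dvd_int_iff k m).2 (by exact_mod_cast h)

/-- a short vector -/
lemma short (y : ℤ_[p]) (j : ℕ) : ∃ z e : ℤ, (z ≠ 0 ∨ e ≠ 0) ∧ |z| ≤ (p : ℤ) ^ j ∧
    |e| ≤ (p : ℤ) ^ j ∧ (p : ℤ_[p]) ^ (2 * j) ∣ (z : ℤ_[p]) - e * y := by
  classical
  have hp0 : 0 < p := hp.out.pos
  haveI : NeZero (p ^ (2 * j)) := ⟨(pow_pos hp0 _).ne'⟩
  obtain ⟨Y, hY⟩ : ∃ Y : ℤ, (p : ℤ_[p]) ^ (2 * j) ∣ y - Y := by
    refine ⟨y.appr (2 * j), ?_⟩
    have := PadicInt.appr_spec (2 * j) y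
    rw [Ideal.mem_span_singleton] at this
    exact_mod_cast this
  let f : Fin (p ^ j + 1) × Fin (p ^ j + 1) → ZMod (p ^ (2 * j)) := fun w =>
    ((((w.1 : ℕ) : ℤ) - ((w.2 : ℕ) : ℤ) * Y : ℤ) : ZMod (p ^ (2 * j)))
  obtain ⟨w, w', hne, heq⟩ := Fintype.exists_ne_map_eq_of_card_lt f (by
    rw [Fintype.card_prod, Fintype.card_fin, ZMod.card, mul_comm 2 j, pow_mul]
    nlinarith [Nat.pos_of_ne_zero (pow_ne_zero j hp0.ne')])
  have h1 : ((((((w.1 : ℕ) : ℤ) - ((w.2 : ℕ) : ℤ) * Y) -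
      (((w'.1 : ℕ) : ℤ) - ((w'.2 : ℕ) : ℤ) * Y) : ℤ)) : ZMod (p ^ (2 * j))) = 0 := by
    rw [Int.cast_sub, sub_eq_zero]
    exact heq
  have h2 := (ZMod.intCast_zmod_eq_zero_iff_dvd _ _).1 h1
  refine ⟨((w.1 : ℕ) : ℤ) - ((w'.1 : ℕ) : ℤ), ((w.2 : ℕ) : ℤ) - ((w'.2 : ℕ) : ℤ), ?_, ?_, ?_, ?_⟩
  · by_contra hcon
    push Not at hcon
    apply hne
    have a1 : (w.1 : ℕ) = w'.1 := by have := hcon.1; omega
    have a2 : (w.2 : ℕ) = w'.2 := by have := hcon.2; omega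
    exact Prod.ext (Fin.ext a1) (Fin.ext a2)
  · have a1 := w.1.2
    have a2 := w'.1.2
    have e1 : ((p ^ j : ℕ) : ℤ) = (p : ℤ) ^ j := by push_cast; rfl
    rw [← e1, abs_le]
    constructor <;> omega
  · have a1 := w.2.2
    have a2 := w'.2.2
    have e1 : ((p ^ j : ℕ) : ℤ) = (p : ℤ) ^ j := by push_cast; rfl
    rw [← e1, abs_le]
    constructor <;> omega
  · have h3 : (p : ℤ) ^ (2 * j) ∣ ((((w.1 : ℕ) : ℤ) - ((w.2 : ℕ) : ℤ) * Y) -
      (((w'.1 : ℕ) : ℤ) - ((w'.2 : ℕ) : ℤ) * Y)) := by exact_mod_cast h2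
    have h4 := int_dvd (p := p) h3
    have h5 := h4.sub (hY.mul_left ((((w.2 : ℕ) : ℤ_[p]) - ((w'.2 : ℕ) : ℤ_[p]))))
    refine h5.trans (dvd_of_eq ?_)
    push_cast
    ring

/-- vectors with a small cofactor -/
lemma good (hy : y ^ 2 = t * y - n) (hroot : ∀ z : ℤ, z ^ 2 ≠ t * z - n)
    (hΔ : ¬ (p : ℤ) ∣ t ^ 2 - 4 * n) (j : ℕ) :
    ∃ (z e c : ℤ) (κ : ℕ), nrm t n z e = c * p ^ κ ∧ ¬ (p : ℤ) ∣ c ∧ |c| ≤ 1 + |t| + |n| ∧ c ≠ 0 ∧
      (p : ℤ_[p]) ^ κ ∣ (z : ℤ_[p]) - e * y ∧ j ≤ κ := by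
  classical
  have hp0 : (0 : ℤ) < p := by exact_mod_cast hp.out.pos
  have hp2 : (2 : ℤ) ≤ p := by exact_mod_cast hp.out.two_le
  obtain ⟨z, e, hne, hz, he, hze⟩ := short y (j + 1)
  -- the power of `p` dividing both
  have hex : ∃ a : ℕ, ¬ ((p : ℤ) ^ (a + 1) ∣ z ∧ (p : ℤ) ^ (a + 1) ∣ e) := by
    refine ⟨j + 1, fun ⟨h1, h2⟩ => ?_⟩
    have hlt : (p : ℤ) ^ (j + 1) < (p : ℤ) ^ (j + 1 + 1) :=
      pow_lt_pow_right₀ (by linarith) (by omega)
    rcases hne with h | h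
    · have := Int.le_of_dvd (abs_pos.2 h) ((dvd_abs _ _).2 h1)
      linarith
    · have := Int.le_of_dvd (abs_pos.2 h) ((dvd_abs _ _).2 h2)
      linarith
  set a := Nat.find hex with ha
  have ha1 : ¬ ((p : ℤ) ^ (a + 1) ∣ z ∧ (p : ℤ) ^ (a + 1) ∣ e) := Nat.find_spec hex
  have ha2 : (p : ℤ) ^ a ∣ z ∧ (p : ℤ) ^ a ∣ e := by
    rcases Nat.eq_zero_or_pos a with h | h
    · rw [h]; simp
    · have := Nat.find_min hex (m := a - 1) (by omega)
      push Not at this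
      rw [Nat.sub_add_cancel h] at this
      by_contra hc
      exact hc (by
        have h3 := this
        tauto)
  obtain ⟨⟨z', hz'⟩, ⟨e', he'⟩⟩ := ha2
  have hpa : (0 : ℤ) < (p : ℤ) ^ a := by positivity
  have hne' : z' ≠ 0 ∨ e' ≠ 0 := by
    rcases hne with h | h
    · left; rintro rfl; exact h (by rw [hz', mul_zero])
    · right; rintro rfl; exact h (by rw [he', mul_zero])
  have haj : a ≤ j + 1 := by
    by_contra hc
    push Not at hc
    have hlt : (p : ℤ) ^ (j + 1) < (p : ℤ) ^ a := pow_lt_pow_right₀ (by linarith) hc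
    rcases hne with h | h
    · have := Int.le_of_dvd (abs_pos.2 h) ((dvd_abs _ _).2 ⟨z', hz'⟩)
      linarith
    · have := Int.le_of_dvd (abs_pos.2 h) ((dvd_abs _ _).2 ⟨e', he'⟩)
      linarith
  have hprim : ¬ ((p : ℤ) ∣ z' ∧ (p : ℤ) ∣ e') := by
    rintro ⟨⟨z2, hz2⟩, ⟨e2, he2⟩⟩
    apply ha1
    constructor
    · exact ⟨z2, by rw [hz', hz2, pow_succ]; ring⟩
    · exact ⟨e2, by rw [he', he2, pow_succ]; ring⟩
  have hpne : (p : ℤ_[p]) ≠ 0 := by exact_mod_cast hp.out.ne_zero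
  -- the reduced vector
  have hred : (p : ℤ_[p]) ^ (2 * (j + 1) - a) ∣ (z' : ℤ_[p]) - e' * y := by
    obtain ⟨c, hc⟩ := hze
    refine ⟨c, ?_⟩
    apply mul_left_cancel₀ (pow_ne_zero a hpne)
    have e1 : (p : ℤ_[p]) ^ a * ((p : ℤ_[p]) ^ (2 * (j + 1) - a) * c) =
        (p : ℤ_[p]) ^ (2 * (j + 1)) * c := by
      rw [← mul_assoc, ← pow_add]
      congr 2
      omega
    rw [e1, ← hc, hz', he']
    push_cast
    ring
  -- the other factor is a unit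
  have hunit : ¬ (p : ℤ_[p]) ∣ (z' : ℤ_[p]) - e' * (t - y) := by
    intro h1
    have h2 : (p : ℤ_[p]) ∣ (z' : ℤ_[p]) - e' * y :=
      (dvd_pow_self _ (by omega : 2 * (j + 1) - a ≠ 0)).trans hred
    have h3 : (p : ℤ_[p]) ∣ e' * (2 * y - t) * (2 * y - t) := by
      have := (h1.sub h2).mul_right (2 * y - t)
      refine this.trans (dvd_of_eq ?_)
      ring
    have h4 : (e' : ℤ_[p]) * (2 * y - t) * (2 * y - t) = ((e' * (t ^ 2 - 4 * n) : ℤ) : ℤ_[p]) := by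
      push_cast
      linear_combination (4 * e' : ℤ_[p]) * hy
    rw [h4] at h3
    have h5 : (p : ℤ) ∣ e' * (t ^ 2 - 4 * n) := by
      have := dvd_int (p := p) (k := 1) (by rwa [pow_one])
      rwa [pow_one] at this
    have hpp : Prime (p : ℤ) := Nat.prime_iff_prime_int.1 hp.out
    have h6 : (p : ℤ) ∣ e' := (hpp.dvd_or_dvd h5).resolve_right hΔ
    have h7 : (p : ℤ) ∣ z' := by
      have h8 : (p : ℤ_[p]) ∣ ((z' : ℤ) : ℤ_[p]) := by
        have h9 : (p : ℤ_[p]) ∣ (e' : ℤ_[p]) * y := by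
          have := int_dvd (p := p) (k := 1) (by rwa [pow_one] : (p : ℤ) ^ 1 ∣ e')
          rw [pow_one] at this
          exact this.mul_right y
        have := h2.add h9
        refine this.trans (dvd_of_eq ?_)
        ring
      have := dvd_int (p := p) (k := 1) (by rwa [pow_one])
      rwa [pow_one] at this
    exact hprim ⟨h7, h6⟩
  have hN0 : nrm t n z' e' ≠ 0 := nrm_ne hroot hne'
  -- the exact power of `p`
  have hfm : FiniteMultiplicity (p : ℤ) (nrm t n z' e') := by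
    rw [Int.finiteMultiplicity_iff]
    refine ⟨?_, hN0⟩
    rw [Int.natAbs_natCast]
    exact hp.out.ne_one
  obtain ⟨c, hc1, hc2⟩ := hfm.exists_eq_pow_mul_and_not_dvd
  set κ := multiplicity (p : ℤ) (nrm t n z' e') with hκ
  have hc0 : c ≠ 0 := by
    rintro rfl
    exact hN0 (by rw [hc1, mul_zero])
  have hprod : (p : ℤ_[p]) ^ κ ∣ ((z' : ℤ_[p]) - e' * y) * (z' - e' * (t - y)) := by
    rw [← nrm_padic hy, hc1]
    push_cast
    exact dvd_mul_right _ _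
  have hκd : (p : ℤ_[p]) ^ κ ∣ (z' : ℤ_[p]) - e' * y :=
    (PadicInt.prime_p (p := p)).pow_dvd_of_dvd_mul_right κ hunit hprod
  have hκge : 2 * (j + 1) - a ≤ κ := by
    by_contra hcon
    push Not at hcon
    have h1 : (p : ℤ_[p]) ^ (κ + 1) ∣ ((nrm t n z' e' : ℤ) : ℤ_[p]) := by
      rw [nrm_padic hy]
      exact ((pow_dvd_pow _ (by omega)).trans hred).mul_right _
    have h2 := dvd_int h1
    rw [hc1, pow_succ] at h2
    exact hc2 ((mul_dvd_mul_iff_left (pow_ne_zero κ hp0.ne')).1 h2)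
  set Q : ℤ := (p : ℤ) ^ (j + 1 - a) with hQ
  have hQ0 : 0 < Q := by positivity
  have hpQ : (p : ℤ) ^ (j + 1) = (p : ℤ) ^ a * Q := by
    rw [hQ, ← pow_add]
    congr 1
    omega
  have hz2 : |z'| ≤ Q := by
    rw [hz', abs_mul, abs_of_pos hpa, hpQ] at hz
    exact le_of_mul_le_mul_left hz hpa
  have he2 : |e'| ≤ Q := by
    rw [he', abs_mul, abs_of_pos hpa, hpQ] at he
    exact le_of_mul_le_mul_left he hpa
  have hNle : |nrm t n z' e'| ≤ (1 + |t| + |n|) * Q ^ 2 := by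
    unfold nrm
    have b1 : |z' ^ 2| ≤ Q ^ 2 := by
      rw [abs_pow]
      exact pow_le_pow_left₀ (abs_nonneg _) hz2 2
    have b2 : |t * z' * e'| ≤ |t| * Q ^ 2 := by
      rw [abs_mul, abs_mul]
      calc |t| * |z'| * |e'| ≤ |t| * Q * Q := by gcongr
        _ = _ := by ring
    have b3 : |n * e' ^ 2| ≤ |n| * Q ^ 2 := by
      rw [abs_mul, abs_pow]
      gcongr
    calc |z' ^ 2 - t * z' * e' + n * e' ^ 2| ≤ |z' ^ 2 - t * z' * e'| + |n * e' ^ 2| := abs_add_le _ _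
      _ ≤ |z' ^ 2| + |t * z' * e'| + |n * e' ^ 2| := by linarith [abs_sub (z' ^ 2) (t * z' * e')]
      _ ≤ _ := by linarith
  refine ⟨z', e', c, κ, by rw [hc1]; ring, hc2, ?_, hc0, hκd, by omega⟩
  have hpk : (0 : ℤ) < (p : ℤ) ^ κ := by positivity
  have h1 : (p : ℤ) ^ κ * |c| ≤ (1 + |t| + |n|) * Q ^ 2 := by
    have : |nrm t n z' e'| = (p : ℤ) ^ κ * |c| := by
      rw [hc1, abs_mul, abs_of_pos hpk]
    rw [← this]
    exact hNle
  have h2 : Q ^ 2 ≤ (p : ℤ) ^ κ := by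
    rw [hQ, ← pow_mul]
    exact pow_le_pow_right₀ (by linarith) (by omega)
  have h3 : (p : ℤ) ^ κ * |c| ≤ (p : ℤ) ^ κ * (1 + |t| + |n|) := by
    refine h1.trans ?_
    rw [mul_comm ((p : ℤ) ^ κ)]
    exact mul_le_mul_of_nonneg_left h2 (by positivity)
  exact le_of_mul_le_mul_left h3 hpk

/-- a power of the prime ideal is principal -/
theorem gen_exists (hy : y ^ 2 = t * y - n) (hroot : ∀ z : ℤ, z ^ 2 ≠ t * z - n)
    (hΔ : ¬ (p : ℤ) ∣ t ^ 2 - 4 * n) : Nonempty (Gen p y t n) := by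
  classical
  have hp0 : (0 : ℤ) < p := by exact_mod_cast hp.out.pos
  choose z e c κ hN hpc hcK hc0 hdiv hκ using good hy hroot hΔ
  set K : ℤ := 1 + |t| + |n| with hK
  have hcl : ∀ j : ℕ, c j ∈ Finset.Icc (-K) K ∧ z j % c j ∈ Finset.Icc (-K) K ∧
      e j % c j ∈ Finset.Icc (-K) K := by
    intro j
    have h1 := abs_le.1 (hcK j)
    have h2 := Int.emod_nonneg (z j) (hc0 j)
    have h3 := Int.emod_lt_abs (z j) (hc0 j)
    have h4 := Int.emod_nonneg (e j) (hc0 j)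
    have h5 := Int.emod_lt_abs (e j) (hc0 j)
    have h6 := hcK j
    simp only [Finset.mem_Icc]
    refine ⟨h1, ⟨by linarith [abs_nonneg t, abs_nonneg n], by linarith⟩,
      ⟨by linarith [abs_nonneg t, abs_nonneg n], by linarith⟩⟩
  let f : ℕ → (Finset.Icc (-K) K) × (Finset.Icc (-K) K) × (Finset.Icc (-K) K) := fun j =>
    (⟨c j, (hcl j).1⟩, ⟨z j % c j, (hcl j).2.1⟩, ⟨e j % c j, (hcl j).2.2⟩)
  obtain ⟨v, hv⟩ := Finite.exists_infinite_fiber f
  have hinf : (f ⁻¹' {v}).Infinite := Set.infinite_coe_iff.1 hv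
  obtain ⟨i, hi⟩ := hinf.nonempty
  obtain ⟨j, hj, hij⟩ := hinf.exists_gt (κ i)
  have hij2 : f i = f j := by
    have h1 : f i = v := hi
    have h2 : f j = v := hj
    rw [h1, h2]
  have ec : c i = c j := congrArg (fun w => (w.1 : ℤ)) hij2
  have ez : z i % c i = z j % c j := congrArg (fun w => (w.2.1 : ℤ)) hij2
  have ee : e i % c i = e j % c j := congrArg (fun w => (w.2.2 : ℤ)) hij2
  have hκij : κ i < κ j := lt_of_lt_of_le hij (hκ j)
  rw [← ec] at ez ee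
  have dz : c i ∣ z j - z i := Int.ModEq.dvd ez
  have de : c i ∣ e j - e i := Int.ModEq.dvd ee
  have hNj := hN j
  rw [← ec] at hNj
  set X1 : ℤ := z j * z i - t * z j * e i + n * e j * e i with hX1
  set X2 : ℤ := z j * e i - e j * z i with hX2
  have c1 : c i ∣ X1 := by
    obtain ⟨m1, hm1⟩ := dz
    obtain ⟨m2, hm2⟩ := de
    have hNi := hN i
    unfold nrm at hNi
    refine ⟨(p : ℤ) ^ κ i + m1 * z i - t * m1 * e i + n * m2 * e i, ?_⟩
    rw [hX1]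
    linear_combination hNi + (z i - t * e i) * hm1 + n * e i * hm2
  have c2 : c i ∣ X2 := by
    obtain ⟨m1, hm1⟩ := dz
    obtain ⟨m2, hm2⟩ := de
    refine ⟨m1 * e i - m2 * z i, ?_⟩
    rw [hX2]
    linear_combination e i * hm1 - z i * hm2
  have hdj : (p : ℤ_[p]) ^ κ i ∣ (z j : ℤ_[p]) - e j * y := (pow_dvd_pow _ hκij.le).trans (hdiv j)
  have q2 : (p : ℤ) ^ κ i ∣ X2 := by
    apply dvd_int (p := p)
    have := (hdj.mul_right (e i : ℤ_[p])).sub ((hdiv i).mul_right (e j : ℤ_[p]))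
    refine this.trans (dvd_of_eq ?_)
    rw [hX2]
    push_cast
    ring
  have q1 : (p : ℤ) ^ κ i ∣ X1 := by
    apply dvd_int (p := p)
    have h1 := (hdj.mul_right ((z i : ℤ_[p]) - e i * (t - y))).sub
      ((int_dvd (p := p) q2).mul_right y)
    refine h1.trans (dvd_of_eq ?_)
    rw [hX1, hX2]
    push_cast
    linear_combination (-(e j : ℤ_[p]) * e i) * hy
  have hcop : IsCoprime (c i) ((p : ℤ) ^ κ i) := by
    apply IsCoprime.pow_right
    have hpp : Prime (p : ℤ) := Nat.prime_iff_prime_int.1 hp.out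
    exact ((Prime.coprime_iff_not_dvd hpp).2 (hpc i)).symm
  obtain ⟨α, hα⟩ := hcop.mul_dvd c1 q1
  obtain ⟨β, hβ⟩ := hcop.mul_dvd c2 q2
  have hm0 : c i * (p : ℤ) ^ κ i ≠ 0 := mul_ne_zero (hc0 i) (pow_ne_zero _ hp0.ne')
  refine ⟨⟨κ j - κ i, by omega, α, β, 1, Or.inl rfl, ?_, ?_⟩⟩
  · apply mul_left_cancel₀ (pow_ne_zero 2 hm0)
    have hNi := hN i
    unfold nrm at hNi hNj
    have e1 : (c i * (p : ℤ) ^ κ i) ^ 2 * (1 * (p : ℤ) ^ (κ j - κ i)) =
        (c i * (p : ℤ) ^ κ j) * (c i * (p : ℤ) ^ κ i) := by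
      have : (p : ℤ) ^ κ j = (p : ℤ) ^ κ i * (p : ℤ) ^ (κ j - κ i) := by
        rw [← pow_add]; congr 1; omega
      rw [this]
      ring
    have e2 : (c i * (p : ℤ) ^ κ i) ^ 2 * (α ^ 2 + t * α * β + n * β ^ 2) =
        X1 ^ 2 + t * X1 * X2 + n * X2 ^ 2 := by
      rw [hα, hβ]
      ring
    have e3 : X1 ^ 2 + t * X1 * X2 + n * X2 ^ 2 = (z j ^ 2 - t * z j * e j + n * e j ^ 2) *
        (z i ^ 2 - t * z i * e i + n * e i ^ 2) := by
      rw [hX1, hX2]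
      ring
    rw [e2, e3, e1, hNj, hNi]
  · have hpne : (p : ℤ_[p]) ≠ 0 := by exact_mod_cast hp.out.ne_zero
    have h1 : (p : ℤ_[p]) ^ κ j ∣ (c i : ℤ_[p]) * (p : ℤ_[p]) ^ κ i * (α + β * y) := by
      have h2 := (hdiv j).mul_right ((z i : ℤ_[p]) - e i * (t - y))
      refine h2.trans (dvd_of_eq ?_)
      have hα' : ((X1 : ℤ) : ℤ_[p]) = (c i : ℤ_[p]) * (p : ℤ_[p]) ^ κ i * α := by
        rw [hα]; push_cast; ring
      have hβ' : ((X2 : ℤ) : ℤ_[p]) = (c i : ℤ_[p]) * (p : ℤ_[p]) ^ κ i * β := by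
        rw [hβ]; push_cast; ring
      rw [mul_add, ← hα', show (c i : ℤ_[p]) * (p : ℤ_[p]) ^ κ i * (β * y) =
        ((X2 : ℤ) : ℤ_[p]) * y by rw [hβ']; ring, hX1, hX2]
      push_cast
      linear_combination (-(e j : ℤ_[p]) * e i) * hy
    have h3 : (p : ℤ_[p]) ^ κ i * (p : ℤ_[p]) ^ (κ j - κ i) ∣
        (p : ℤ_[p]) ^ κ i * ((c i : ℤ_[p]) * (α + β * y)) := by
      rw [← pow_add, show κ i + (κ j - κ i) = κ j by omega]
      refine h1.trans (dvd_of_eq ?_)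
      ring
    have h4 := (mul_dvd_mul_iff_left (pow_ne_zero (κ i) hpne)).1 h3
    rw [mul_comm] at h4
    refine (PadicInt.prime_p (p := p)).pow_dvd_of_dvd_mul_right _ ?_ h4
    intro h5
    have := dvd_int (p := p) (k := 1) (by rwa [pow_one])
    rw [pow_one] at this
    exact hpc i this

end Pool.Agent.U773.PA
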