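import Mathlib
import Pool.Agent.U773.PA.Orb

/-! Matrix identities. -/

set_option autoImplicit false

open Finset

namespace Pool.Agent.U773.PA

variable {p : ℕ} [Fact p.Prime] {y : ℤ_[p]} {t0 n0 : ℤ}

lemma mat2 (G : Gen p y t0 n0) {O : Type} [CommRing O] (Y Y' : O) (hY : Y ^ 2 = t0 * Y - n0)
    (hY' : Y' ^ 2 = t0 * Y' - n0) (κ : ℕ) :
    (!![1, -Y; 1, -Y'] : Matrix (Fin 2) (Fin 2) O) * (G.T ^ κ).map (Int.castRingHom O) =
      Matrix.diagonal ![(G.α + G.β * Y) ^ κ, (G.α + G.β * Y') ^ κ] * !![1, -Y; 1, -Y'] := by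
  obtain ⟨a1, a2⟩ := G.eig Y hY κ
  obtain ⟨b1, b2⟩ := G.eig Y' hY' κ
  ext i j
  rw [Matrix.diagonal_mul, Matrix.mul_apply, Fin.sum_univ_two]
  fin_cases i <;> fin_cases j
  · simp
    linear_combination a1
  · simp
    linear_combination a2
  · simp
    linear_combination b1
  · simp
    linear_combination b2

/-- the lattice in three variables -/
def B3 (u : ℤ) (P : Matrix (Fin 2) (Fin 2) ℤ) : Matrix (Fin 3) (Fin 3) ℤ :=
  !![u, 0, 0; 0, P 0 0, P 0 1; 0, P 1 0, P 1 1]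

/-- the lattice in four variables -/
def B4 (u D : ℤ) (P : Matrix (Fin 2) (Fin 2) ℤ) : Matrix (Fin 4) (Fin 4) ℤ :=
  !![u, 0, 0, 0; 0, P 0 0, P 0 1, 0; 0, P 1 0, P 1 1, 0; 0, 0, 0, D]

lemma det_B3 (u : ℤ) (P : Matrix (Fin 2) (Fin 2) ℤ) : (B3 u P).det = u * P.det := by
  unfold B3
  rw [Matrix.det_fin_three, Matrix.det_fin_two P]
  simp
  ring

lemma det_B4 (u D : ℤ) (P : Matrix (Fin 2) (Fin 2) ℤ) : (B4 u D P).det = u * D * P.det := by
  unfold B4
  rw [Matrix.det_succ_row_zero, Fin.sum_univ_four]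
  simp [Matrix.det_fin_three, Matrix.submatrix, Fin.succAbove, Matrix.det_fin_two P]
  ring

lemma mul_B3 (u Z E : ℤ) (P : Matrix (Fin 2) (Fin 2) ℤ) (w : Fin 2 → ℤ)
    (hw : P.mulVec w = ![Z, E]) : (B3 u P).mulVec ![1, w 0, w 1] = ![u, Z, E] := by
  have h0 := congrFun hw 0
  have h1 := congrFun hw 1
  simp only [Matrix.mulVec, dotProduct, Fin.sum_univ_two, Matrix.cons_val_zero,
    Matrix.cons_val_one] at h0 h1
  unfold B3
  funext i
  fin_cases i
  · simp [Matrix.mulVec, dotProduct, Fin.sum_univ_three]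
  · simp [Matrix.mulVec, dotProduct, Fin.sum_univ_three]
    linarith
  · simp [Matrix.mulVec, dotProduct, Fin.sum_univ_three]
    linarith

lemma mul_B4 (u D M Z E : ℤ) (P : Matrix (Fin 2) (Fin 2) ℤ) (w : Fin 2 → ℤ)
    (hw : P.mulVec w = ![Z, E]) :
    (B4 u D P).mulVec ![1, w 0, w 1, M] = ![u, Z, E, D * M] := by
  have h0 := congrFun hw 0
  have h1 := congrFun hw 1
  simp only [Matrix.mulVec, dotProduct, Fin.sum_univ_two, Matrix.cons_val_zero,
    Matrix.cons_val_one] at h0 h1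
  unfold B4
  funext i
  fin_cases i
  · simp [Matrix.mulVec, dotProduct, Fin.sum_univ_four]
  · simp [Matrix.mulVec, dotProduct, Fin.sum_univ_four]
    linarith
  · simp [Matrix.mulVec, dotProduct, Fin.sum_univ_four]
    linarith
  · simp [Matrix.mulVec, dotProduct, Fin.sum_univ_four]

lemma mat3 (G : Gen p y t0 n0) {O : Type} [CommRing O] (Y Y' : O) (hY : Y ^ 2 = t0 * Y - n0)
    (hY' : Y' ^ 2 = t0 * Y' - n0) (κ : ℕ) (u : ℤ) :
    (!![1, 0, 0; 0, 1, -Y; 0, 1, -Y'] : Matrix (Fin 3) (Fin 3) O) *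
        (B3 u (G.T ^ κ)).map (Int.castRingHom O) =
      Matrix.diagonal ![(u : O), (G.α + G.β * Y) ^ κ, (G.α + G.β * Y') ^ κ] *
        !![1, 0, 0; 0, 1, -Y; 0, 1, -Y'] := by
  obtain ⟨a1, a2⟩ := G.eig Y hY κ
  obtain ⟨b1, b2⟩ := G.eig Y' hY' κ
  unfold B3
  ext i j
  rw [Matrix.diagonal_mul, Matrix.mul_apply, Fin.sum_univ_three]
  fin_cases i <;> fin_cases j
  · simp
  · simp
  · simp
  · simp
  · simp
    linear_combination a1
  · simp
    linear_combination a2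
  · simp
  · simp
    linear_combination b1
  · simp
    linear_combination b2

lemma mat4 (G : Gen p y t0 n0) {O : Type} [CommRing O] (Y Y' : O) (hY : Y ^ 2 = t0 * Y - n0)
    (hY' : Y' ^ 2 = t0 * Y' - n0) (κ : ℕ) (u D : ℤ) :
    (!![1, 0, 0, 0; 0, 1, -Y, 0; 0, 1, -Y', 0; 0, 0, 0, 1] : Matrix (Fin 4) (Fin 4) O) *
        (B4 u D (G.T ^ κ)).map (Int.castRingHom O) =
      Matrix.diagonal ![(u : O), (G.α + G.β * Y) ^ κ, (G.α + G.β * Y') ^ κ, (D : O)] *
        !![1, 0, 0, 0; 0, 1, -Y, 0; 0, 1, -Y', 0; 0, 0, 0, 1] := by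
  obtain ⟨a1, a2⟩ := G.eig Y hY κ
  obtain ⟨b1, b2⟩ := G.eig Y' hY' κ
  unfold B4
  ext i j
  rw [Matrix.diagonal_mul, Matrix.mul_apply, Fin.sum_univ_four]
  fin_cases i <;> fin_cases j
  · simp
  · simp
  · simp
  · simp
  · simp
  · simp
    linear_combination a1
  · simp
    linear_combination a2
  · simp
  · simp
  · simp
    linear_combination b1
  · simp
    linear_combination b2
  · simp
  · simp
  · simp
  · simp
  · simp

lemma det_M3 {O : Type} [CommRing O] (Y Y' : O) :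
    (!![1, 0, 0; 0, 1, -Y; 0, 1, -Y'] : Matrix (Fin 3) (Fin 3) O).det = Y - Y' := by
  rw [Matrix.det_fin_three]
  simp
  ring

lemma det_M4 {O : Type} [CommRing O] (Y Y' : O) :
    (!![1, 0, 0, 0; 0, 1, -Y, 0; 0, 1, -Y', 0; 0, 0, 0, 1] : Matrix (Fin 4) (Fin 4) O).det =
      Y - Y' := by
  rw [Matrix.det_succ_row_zero, Fin.sum_univ_four]
  simp [Matrix.det_fin_three, Matrix.submatrix, Fin.succAbove]
  ring

end Pool.Agent.U773.PA
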