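import Mathlib

/-! An order which contains a multiple of an algebraic number and a given integral number. -/

set_option autoImplicit false

namespace Pool.Agent.U773.PA

lemma order2 (x Y : ℂ) (hx : IsAlgebraic ℚ x) (hY : IsIntegral ℤ Y) :
    ∃ (A : Subalgebra ℤ ℂ) (d : ℤ), d ≠ 0 ∧ Module.Finite ℤ A ∧ (d : ℂ) * x ∈ A ∧ Y ∈ A := by
  classical
  obtain ⟨d, hd, hint⟩ : ∃ d : ℤ, d ≠ 0 ∧ IsIntegral ℤ ((d : ℂ) * x) := by
    obtain ⟨d, hd, hint⟩ :=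
      IsAlgebraic.exists_integral_multiple ((IsFractionRing.isAlgebraic_iff ℤ ℚ ℂ).2 hx)
    rw [zsmul_eq_mul] at hint
    exact ⟨d, hd, hint⟩
  refine ⟨Algebra.adjoin ℤ {(d : ℂ) * x, Y}, d, hd, ?_, ?_, ?_⟩
  · refine Module.Finite.iff_fg.2 (fg_adjoin_of_finite (Set.toFinite _) ?_)
    intro w hw
    rcases hw with h | h
    · rw [h]; exact hint
    · rw [Set.mem_singleton_iff.1 h]; exact hY
  · exact Algebra.subset_adjoin (Or.inl rfl)
  · exact Algebra.subset_adjoin (Or.inr rfl)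

/-- a complex root -/
lemma root_exists (t n : ℤ) : ∃ Y : ℂ, Y ^ 2 = t * Y - n ∧ IsIntegral ℤ Y := by
  obtain ⟨s, hs⟩ : ∃ s : ℂ, s ^ 2 = (t : ℂ) ^ 2 - 4 * n := by
    obtain ⟨s, hs⟩ := IsAlgClosed.exists_pow_nat_eq ((t : ℂ) ^ 2 - 4 * n) (n := 2) (by norm_num)
    exact ⟨s, hs⟩
  have hY : ((t + s) / 2 : ℂ) ^ 2 = t * ((t + s) / 2) - n := by
    linear_combination (1 / 4 : ℂ) * hs
  refine ⟨(t + s) / 2, hY, ?_⟩
  refine ⟨Polynomial.X ^ 2 - Polynomial.C t * Polynomial.X + Polynomial.C n, ?_, ?_⟩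
  · monicity!
  · simp only [Polynomial.eval₂_add, Polynomial.eval₂_sub, Polynomial.eval₂_mul,
      Polynomial.eval₂_pow, Polynomial.eval₂_X, Polynomial.eval₂_C]
    rw [hY]
    simp

end Pool.Agent.U773.PA
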