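import Mathlib
import Pool.Agent.TH419.WI.Rel

/-! The subspace theorem with one orbit of a matrix and monomials. -/

set_option autoImplicit false

open Finset Filter Topology

namespace Pool.Agent.U773.PA

open Pool.Agent.TH419.WI Pool.Agent.TH286.GT

theorem subG (O : Type) [CommRing O] [IsDomain O] [CharZero O] [Module.Free ℤ O]
    [Module.Finite ℤ O] (φ : O →+* ℂ) {n k : ℕ} (hn : 1 ≤ n) (g : Fin k → ℕ) (hg : ∀ v, 0 < g v)
    (M0 M : Matrix (Fin n) (Fin n) O) (hdet0 : M0.det ≠ 0) (him : ∀ i j, (φ (M0 i j)).im = 0)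
    (hdet : M.det ≠ 0) (ϖ : Fin n → O) (hϖ : ∀ l, ϖ l ≠ 0)
    (c γ : ℝ) (hc : 1 ≤ c) (hγ : 0 < γ) (N : ℕ → ℝ) (hN : Tendsto N atTop atTop)
    (e : ℕ → Fin n → Fin k → ℕ) (κ : ℕ → ℕ) (B : ℕ → Matrix (Fin n) (Fin n) ℤ)
    (hB : ∀ t, (B t).det ≠ 0 ∧ M * (B t).map (Int.castRingHom O) =
      Matrix.diagonal (fun l => ϖ l ^ κ t * ((mon g (e t l) : ℤ) : O)) * M)
    (A : ℕ → Fin n → ℝ) (z : ℕ → Fin n → ℤ)
    (h1 : ∀ᶠ t in atTop, Real.log |((B t).det : ℝ)| ≤ c * N t)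
    (h2 : ∀ᶠ t in atTop, ∀ l, 0 < A t l)
    (h3 : ∀ᶠ t in atTop, ∀ l, |Real.log (A t l)| ≤ c * N t)
    (h4 : ∀ᶠ t in atTop, ∑ l, Real.log (A t l) + γ * N t ≤ Real.log |((B t).det : ℝ)|)
    (h5 : ∀ t, (B t).mulVec (z t) ≠ 0)
    (h6 : ∀ᶠ t in atTop, ∀ l, ‖φ (∑ j, M0 l j * (((B t).mulVec (z t) j : ℤ) : O))‖ ≤ A t l) :
    ∃ y : Fin n → ℤ, y ≠ 0 ∧ ∃ᶠ t in atTop, ∑ l, y l * (B t).mulVec (z t) l = 0 := by
  classical
  obtain ⟨T, hT⟩ := eventually_atTop.1 (h1.and (h2.and (h3.and (h4.and h6))))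
  set lam : Fin (k * n + 1) → Fin n → O := Fin.cons ϖ (lamV O g) with hlam
  set kk : ℕ → Fin (k * n + 1) → ℕ := fun t => Fin.cons (κ t) (kkV (e t)) with hkk
  have hbet : ∀ t, bet lam (kk t) = fun l => ϖ l ^ κ t * ((mon g (e t l) : ℤ) : O) := by
    intro t
    funext l
    have h7 := bet_eq O g (e t) l
    unfold bet at h7 ⊢
    rw [Fin.prod_univ_succ]
    simp only [hlam, hkk, Fin.cons_zero, Fin.cons_succ]
    rw [h7]
  obtain ⟨y, hy, hfr⟩ := subspaceO O φ n (k * n + 1) hn M0 M lam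
    ⟨hdet0, him, hdet, by
      intro v l
      refine Fin.cases ?_ ?_ v
      · simpa [hlam] using hϖ l
      · intro w
        simp only [hlam, Fin.cons_succ]
        unfold lamV
        split_ifs
        · exact_mod_cast (hg _).ne'
        · exact one_ne_zero⟩ c γ hc hγ (fun t => N (t + T)) (hN.comp (tendsto_add_atTop_nat T))
    (fun t => kk (t + T)) (fun t => B (t + T))
    (by
      intro t
      refine ⟨(hB _).1, ?_⟩
      rw [hbet]
      exact (hB _).2)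
    (fun t => A (t + T))
    (by
      intro t
      obtain ⟨g1, g2, g3, g4, g6⟩ := hT (t + T) (Nat.le_add_left _ _)
      exact ⟨g1, g2, g3, g4⟩)
    (fun t l => (B (t + T)).mulVec (z (t + T)) l)
    (fun t => h5 (t + T))
    (by
      intro t
      obtain ⟨g1, g2, g3, g4, g6⟩ := hT (t + T) (Nat.le_add_left _ _)
      exact ⟨g6, z (t + T), rfl⟩)
  refine ⟨y, hy, ?_⟩
  exact (tendsto_add_atTop_nat T).frequently hfr

end Pool.Agent.U773.PA
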