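import Mathlib
import Pool.Agent.U773.PA.Sub
import Pool.Agent.U773.PA.Mat
import Pool.Agent.U773.PA.Order

/-! The relation for integers near a quadratic `p`-adic integer. -/

set_option autoImplicit false

open Finset Filter Topology

namespace Pool.Agent.U773.PA

open Pool.Agent.TH419.WI

variable {p : ℕ} [Fact p.Prime] {y : ℤ_[p]} {t0 n0 : ℤ}

/-- the algebraic data in a ring -/
lemma gen_alg (G : Gen p y t0 n0) (hΔ : t0 ^ 2 - 4 * n0 ≠ 0) {O : Type} [CommRing O] [IsDomain O]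
    [CharZero O] (Y : O) (hY : Y ^ 2 = t0 * Y - n0) :
    (t0 - Y : O) ^ 2 = t0 * (t0 - Y) - n0 ∧ Y - (t0 - Y) ≠ 0 ∧ (G.α + G.β * Y : O) ≠ 0 ∧
      (G.α + G.β * (t0 - Y) : O) ≠ 0 := by
  have h1 : (G.α + G.β * Y : O) * (G.α + G.β * (t0 - Y)) = ((G.s * p ^ G.h : ℤ) : O) := by
    rw [← G.norm]
    push_cast
    linear_combination (-(G.β : O) ^ 2) * hY
  have h2 : ((G.s * p ^ G.h : ℤ) : O) ≠ 0 := by
    have hp : (p : ℤ) ≠ 0 := by exact_mod_cast (Fact.out : p.Prime).ne_zero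
    have hs : G.s ≠ 0 := by rcases G.hs with h | h <;> rw [h] <;> norm_num
    exact_mod_cast mul_ne_zero hs (pow_ne_zero _ hp)
  rw [← h1] at h2
  refine ⟨by linear_combination hY, ?_, left_ne_zero_of_mul h2, right_ne_zero_of_mul h2⟩
  intro h3
  have h4 : ((t0 ^ 2 - 4 * n0 : ℤ) : O) = 0 := by
    push_cast
    linear_combination (-4 : O) * hY + (Y - (t0 - Y)) * h3
  exact hΔ (by exact_mod_cast h4)

lemma log_pk {p : ℕ} (hp : 0 < p) {k : ℕ} {X : ℝ} (h : (p : ℝ) ^ k ≤ Real.exp X) :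
    (k : ℝ) * Real.log p ≤ X := by
  have h1 : (0 : ℝ) < (p : ℝ) ^ k := by positivity
  have h2 := (Real.log_le_iff_le_exp h1).2 h
  rwa [Real.log_pow] at h2

theorem relC (G : Gen p y t0 n0) (hy : y ^ 2 = t0 * y - n0) (hΔ : t0 ^ 2 - 4 * n0 ≠ 0)
    (C ε : ℝ) (hC : 0 ≤ C) (hε : 0 < ε) (N : ℕ → ℝ)
    (hN : Tendsto N atTop atTop) (k : ℕ → ℕ) (Z : ℕ → ℤ)
    (hk : ∀ t, (p : ℝ) ^ k t ≤ Real.exp (C * N t))
    (hdiv : ∀ t, (p : ℤ_[p]) ^ k t ∣ (Z t : ℤ_[p]) - y)
    (hsm : ∀ t, 1 + |(Z t : ℝ)| ≤ (p : ℝ) ^ k t * Real.exp (-(ε * N t))) :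
    ∃ r : Fin 2 → ℤ, r ≠ 0 ∧ ∃ᶠ t in atTop, r 0 * Z t + r 1 = 0 := by
  classical
  obtain ⟨Yc, hYc, hYi⟩ := root_exists t0 n0
  obtain ⟨O, d, hd, hfin, -, hYO⟩ := order2 0 Yc isAlgebraic_zero hYi
  have hp0 : 0 < p := (Fact.out : p.Prime).pos
  have hp1 : (1 : ℝ) < p := by exact_mod_cast (Fact.out : p.Prime).one_lt
  have hlp : 0 < Real.log p := Real.log_pos hp1
  let φ : O →+* ℂ := O.val.toRingHom
  have hφ : ∀ a : O, φ a = (a : ℂ) := fun a => rfl
  set Y : O := ⟨Yc, hYO⟩ with hYdef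
  have hY : Y ^ 2 = t0 * Y - n0 := by
    apply Subtype.ext
    push_cast
    exact hYc
  obtain ⟨hY', hne, hϖ1, hϖ2⟩ := gen_alg G hΔ Y hY
  set κ : ℕ → ℕ := fun t => k t / G.h with hκ
  have hκ1 : ∀ t, G.h * κ t ≤ k t := fun t => Nat.mul_div_le _ _
  have hκ2 : ∀ t, k t < G.h * κ t + G.h := fun t => by
    have := Nat.lt_mul_div_succ (k t) G.hpos
    simp only [hκ]
    linarith [this, Nat.mul_succ G.h (k t / G.h)]
  have horb : ∀ t, ∃ w : Fin 2 → ℤ, (G.T ^ κ t).mulVec w = ![Z t, 1] := fun t =>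
    G.orb hy (κ t) (Z t) 1 (by
      rw [Int.cast_one, one_mul]
      exact (pow_dvd_pow _ (hκ1 t)).trans (hdiv t))
  choose w hw using horb
  have hdet : ∀ t, Real.log |(((G.T ^ κ t).det : ℤ) : ℝ)| = ((G.h * κ t : ℕ) : ℝ) * Real.log p :=
    fun t => by rw [G.det_pow, Real.log_pow]
  have hkk : ∀ t, (k t : ℝ) * Real.log p ≤ C * N t := fun t => log_pk hp0 (hk t)
  have hκr1 : ∀ t, ((G.h * κ t : ℕ) : ℝ) * Real.log p ≤ (k t : ℝ) * Real.log p := fun t =>
    mul_le_mul_of_nonneg_right (by exact_mod_cast hκ1 t) hlp.le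
  have hκr2 : ∀ t, (k t : ℝ) * Real.log p - G.h * Real.log p ≤
      ((G.h * κ t : ℕ) : ℝ) * Real.log p := fun t => by
    rw [← sub_mul]
    refine mul_le_mul_of_nonneg_right ?_ hlp.le
    have := hκ2 t
    have h2 : (k t : ℝ) ≤ ((G.h * κ t : ℕ) : ℝ) + G.h := by exact_mod_cast this.le
    linarith
  have hlZ : ∀ t, 0 ≤ Real.log (1 + |(Z t : ℝ)|) ∧
      Real.log (1 + |(Z t : ℝ)|) ≤ k t * Real.log p - ε * N t := by
    intro t
    have h1 : 1 ≤ 1 + |(Z t : ℝ)| := by linarith [abs_nonneg (Z t : ℝ)]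
    refine ⟨Real.log_nonneg h1, ?_⟩
    have h2 := Real.log_le_log (by linarith) (hsm t)
    rw [Real.log_mul (by positivity) (Real.exp_pos _).ne', Real.log_exp, Real.log_pow] at h2
    linarith
  have hN0 : ∀ᶠ t in atTop, 0 ≤ N t := hN.eventually_ge_atTop 0
  obtain ⟨r, hr, hfr⟩ := subG O φ (n := 2) (k := 0) (by norm_num) Fin.elim0 (fun v => v.elim0)
    !![1, 0; 0, 1] !![1, -Y; 1, -(t0 - Y)]
    (by rw [Matrix.det_fin_two_of]; norm_num)
    (by
      intro i j
      fin_cases i <;> fin_cases j <;> simp [hφ])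
    (by
      rw [Matrix.det_fin_two_of]
      intro h
      apply hne
      linear_combination h)
    ![G.α + G.β * Y, G.α + G.β * (t0 - Y)]
    (by
      intro l
      fin_cases l
      · exact hϖ1
      · exact hϖ2)
    (C + 1) (ε / 2) (by linarith) (by positivity) N hN (fun _ _ => Fin.elim0) κ
    (fun t => G.T ^ κ t)
    (by
      intro t
      refine ⟨?_, ?_⟩
      · intro h0
        have := G.det_pow (κ t)
        rw [h0] at this
        simp at this
        have h3 : (0 : ℝ) < (p : ℝ) ^ (G.h * κ t) := by positivity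
        rw [← this] at h3
        exact lt_irrefl _ h3
      · rw [mat2 G Y (t0 - Y) hY hY' (κ t)]
        congr 2
        funext l
        fin_cases l <;> simp [mon])
    (fun t => ![1 + |(Z t : ℝ)|, 1]) w
    (by
      filter_upwards [hN0] with t ht
      rw [hdet]
      linarith [hκr1 t, hkk t])
    (by
      refine Eventually.of_forall fun t l => ?_
      fin_cases l
      · show (0 : ℝ) < 1 + |(Z t : ℝ)|
        positivity
      · show (0 : ℝ) < 1
        norm_num)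
    (by
      filter_upwards [hN0] with t ht l
      have hCN : 0 ≤ C * N t := mul_nonneg hC ht
      have hεN : 0 ≤ ε * N t := mul_nonneg hε.le ht
      fin_cases l
      · show |Real.log (1 + |(Z t : ℝ)|)| ≤ _
        rw [abs_of_nonneg (hlZ t).1]
        linarith [(hlZ t).2, hkk t]
      · show |Real.log 1| ≤ _
        rw [Real.log_one, abs_zero]
        linarith)
    (by
      filter_upwards [hN0, (hN.const_mul_atTop (show 0 < ε / 2 by positivity)).eventually_ge_atTop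
        (G.h * Real.log p)] with t ht hl
      rw [Fin.sum_univ_two, hdet]
      show Real.log (1 + |(Z t : ℝ)|) + Real.log 1 + ε / 2 * N t ≤ _
      rw [Real.log_one]
      linarith [(hlZ t).2, hκr2 t])
    (by
      intro t h0
      rw [hw] at h0
      have := congrFun h0 1
      simp at this)
    (by
      refine Eventually.of_forall fun t l => ?_
      rw [hw]
      rw [Fin.sum_univ_two]
      fin_cases l
      · show ‖φ ((1 : O) * ((Z t : ℤ) : O) + 0 * _)‖ ≤ 1 + |(Z t : ℝ)|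
        rw [one_mul, zero_mul, add_zero, map_intCast, Complex.norm_intCast]
        linarith
      · show ‖φ ((0 : O) * _ + 1 * ((1 : ℤ) : O))‖ ≤ 1
        simp)
  refine ⟨r, hr, hfr.mono fun t ht => ?_⟩
  rw [hw, Fin.sum_univ_two] at ht
  simpa using ht

end Pool.Agent.U773.PA
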