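import Mathlib
import Pool.Agent.U773.PA.RelB

/-! The relation for a unit, a multiple of a unit and an integer near a quadratic `p`-adic integer. -/

set_option autoImplicit false

open Finset Filter Topology

namespace Pool.Agent.U773.PA

open Pool.Agent.TH419.WI Pool.Agent.U773.BD Pool.Agent.U773.WN
  Pool.Agent.U773.RS Pool.Agent.N671.OPN Pool.Agent.U773.SF

variable {p : ℕ} [Fact p.Prime] {y : ℤ_[p]} {t0 n0 : ℤ}

lemma det_M0 {O : Type} [CommRing O] (a c : O) :
    (!![1, 0, 0, 0; 0, 1, 0, 0; 0, 0, 1, 0; a, c, 0, c] : Matrix (Fin 4) (Fin 4) O).det = c := by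
  rw [Matrix.det_of_isLowerTriangular]
  · simp [Fin.prod_univ_succ]
  · intro i j hij
    rw [OrderDual.toDual_lt_toDual] at hij
    fin_cases i <;> fin_cases j <;> first | rfl | exact absurd hij (by decide)

theorem relA (G : Gen p y t0 n0) (hy : y ^ 2 = t0 * y - n0) (hΔ : t0 ^ 2 - 4 * n0 ≠ 0)
    {S : Finset ℕ} (hS : ∀ p ∈ S, p.Prime) {a : ℝ} (ha : IsAlgebraic ℚ a)
    (C ε : ℝ) (hC : 0 ≤ C) (hε : 0 < ε) (N : ℕ → ℝ)
    (hN : Tendsto N atTop atTop) (u D k : ℕ → ℕ) (M Z : ℕ → ℤ)
    (hu : ∀ t, SU S (u t) ∧ (u t : ℝ) ≤ Real.exp (C * N t))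
    (hD : ∀ t, SU S (D t) ∧ (D t : ℝ) ≤ Real.exp (C * N t))
    (hk : ∀ t, (p : ℝ) ^ k t ≤ Real.exp (C * N t))
    (hdiv : ∀ t, (p : ℤ_[p]) ^ k t ∣ (Z t : ℤ_[p]) - y)
    (hsm : ∀ t, (1 + |a * u t - D t * M t - Z t|) * (1 + |(Z t : ℝ)|) ≤
      D t * (p : ℝ) ^ k t * Real.exp (-(ε * N t))) :
    ∃ r : Fin 4 → ℤ, r ≠ 0 ∧ ∃ᶠ t in atTop,
      r 0 * u t + r 1 * Z t + r 2 + r 3 * (D t * M t) = 0 := by
  classical
  obtain ⟨Yc, hYc, hYi⟩ := root_exists t0 n0
  obtain ⟨O, d, hd, hfin, haO, hYO⟩ := order2 (a : ℂ) Yc (by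
    have := ha.algebraMap (A := ℂ)
    simpa using this) hYi
  have hdR : (d : ℝ) ≠ 0 := by exact_mod_cast hd
  have hdp : 0 < |(d : ℝ)| := abs_pos.2 hdR
  have hp0 : 0 < p := (Fact.out : p.Prime).pos
  have hp1 : (1 : ℝ) < p := by exact_mod_cast (Fact.out : p.Prime).one_lt
  have hlp : 0 < Real.log p := Real.log_pos hp1
  let φ : O →+* ℂ := O.val.toRingHom
  have hφ : ∀ a : O, φ a = (a : ℂ) := fun a => rfl
  set Y : O := ⟨Yc, hYO⟩ with hYdef
  set a' : O := ⟨(d : ℂ) * a, haO⟩ with ha'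
  have hY : Y ^ 2 = t0 * Y - n0 := by
    apply Subtype.ext
    push_cast
    exact hYc
  obtain ⟨hY', hne, hϖ1, hϖ2⟩ := gen_alg G hΔ Y hY
  set κ : ℕ → ℕ := fun t => k t / G.h with hκ
  have hκ1 : ∀ t, G.h * κ t ≤ k t := fun t => Nat.mul_div_le _ _
  have hκ2 : ∀ t, k t < G.h * κ t + G.h := fun t => by
    have := Nat.lt_mul_div_succ (k t) G.hpos
    simp only [hκ]
    linarith [this, Nat.mul_succ G.h (k t / G.h)]
  have horb : ∀ t, ∃ w : Fin 2 → ℤ, (G.T ^ κ t).mulVec w = ![Z t, 1] := fun t =>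
    G.orb hy (κ t) (Z t) 1 (by
      rw [Int.cast_one, one_mul]
      exact (pow_dvd_pow _ (hκ1 t)).trans (hdiv t))
  choose w hw using horb
  have hBz : ∀ t, (B4 (u t) (D t) (G.T ^ κ t)).mulVec ![1, w t 0, w t 1, M t] =
      ![(u t : ℤ), Z t, 1, D t * M t] :=
    fun t => mul_B4 _ _ _ _ _ _ _ (hw t)
  have p1 : ∀ t, (1 : ℝ) ≤ u t := fun t => by exact_mod_cast (hu t).1.1
  have p2 : ∀ t, (1 : ℝ) ≤ D t := fun t => by exact_mod_cast (hD t).1.1
  have hdet : ∀ t, Real.log |(((B4 (u t) (D t) (G.T ^ κ t)).det : ℤ) : ℝ)| =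
      Real.log (u t) + Real.log (D t) + ((G.h * κ t : ℕ) : ℝ) * Real.log p := fun t => by
    have h3 : (0 : ℝ) < (p : ℝ) ^ (G.h * κ t) := by positivity
    have h4 := G.det_pow (κ t)
    have q1 := p1 t
    have q2 := p2 t
    rw [det_B4, Int.cast_mul, Int.cast_mul, Int.cast_natCast, Int.cast_natCast, abs_mul, abs_mul,
      h4, abs_of_nonneg (by linarith : (0 : ℝ) ≤ u t), abs_of_nonneg (by linarith : (0 : ℝ) ≤ D t),
      Real.log_mul (by positivity) h3.ne', Real.log_mul (by linarith) (by linarith),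
      Real.log_pow]
  have hkk : ∀ t, (k t : ℝ) * Real.log p ≤ C * N t := fun t => log_pk hp0 (hk t)
  have hκr1 : ∀ t, ((G.h * κ t : ℕ) : ℝ) * Real.log p ≤ (k t : ℝ) * Real.log p := fun t =>
    mul_le_mul_of_nonneg_right (by exact_mod_cast hκ1 t) hlp.le
  have hκr2 : ∀ t, (k t : ℝ) * Real.log p - G.h * Real.log p ≤
      ((G.h * κ t : ℕ) : ℝ) * Real.log p := fun t => by
    rw [← sub_mul]
    refine mul_le_mul_of_nonneg_right ?_ hlp.le
    have := hκ2 t
    have h2 : (k t : ℝ) ≤ ((G.h * κ t : ℕ) : ℝ) + G.h := by exact_mod_cast this.le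
    linarith
  have hlu : ∀ t, 0 ≤ Real.log (u t) ∧ Real.log (u t) ≤ C * N t := fun t =>
    SU_log (hu t).1 (hu t).2
  have hlD : ∀ t, 0 ≤ Real.log (D t) ∧ Real.log (D t) ≤ C * N t := fun t =>
    SU_log (hD t).1 (hD t).2
  have hlZ : ∀ t, 0 ≤ Real.log (1 + |(Z t : ℝ)|) ∧ 0 ≤ Real.log (1 + |a * u t - D t * M t - Z t|) ∧
      Real.log (1 + |a * u t - D t * M t - Z t|) + Real.log (1 + |(Z t : ℝ)|) ≤
        Real.log (D t) + k t * Real.log p - ε * N t := by
    intro t
    have h1 : 1 ≤ 1 + |(Z t : ℝ)| := by linarith [abs_nonneg (Z t : ℝ)]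
    have h1' : 1 ≤ 1 + |a * u t - D t * M t - Z t| := by linarith [abs_nonneg (a * u t - D t * M t - Z t)]
    refine ⟨Real.log_nonneg h1, Real.log_nonneg h1', ?_⟩
    have h2 := Real.log_le_log (by positivity) (hsm t)
    have hu0 : (D t : ℝ) ≠ 0 := by have := p2 t; linarith
    rw [Real.log_mul (by linarith) (by linarith),
      Real.log_mul (mul_ne_zero hu0 (by positivity)) (Real.exp_pos _).ne', Real.log_exp,
      Real.log_mul hu0 (by positivity), Real.log_pow] at h2
    linarith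
  have hN0 : ∀ᶠ t in atTop, 0 ≤ N t := hN.eventually_ge_atTop 0
  obtain ⟨r, hr, hfr⟩ := subG O φ (n := 4) (by norm_num) (gS S) (gS_pos hS)
    !![1, 0, 0, 0; 0, 1, 0, 0; 0, 0, 1, 0; a', -(d : O), 0, -(d : O)]
    !![1, 0, 0, 0; 0, 1, -Y, 0; 0, 1, -(t0 - Y), 0; 0, 0, 0, 1]
    (by
      rw [det_M0]
      rw [neg_ne_zero]
      exact_mod_cast hd)
    (by
      intro i j
      have e1 : (φ a').im = 0 := by
        rw [hφ]
        show ((d : ℂ) * (a : ℂ)).im = 0
        simp
      have e2 : (φ (-(d : O))).im = 0 := by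
        rw [map_neg, map_intCast]
        simp
      fin_cases i <;> fin_cases j <;> first | exact e1 | exact e2 | simp)
    (by
      rw [det_M4]
      exact hne)
    ![1, G.α + G.β * Y, G.α + G.β * (t0 - Y), 1]
    (by
      intro l
      fin_cases l
      · exact one_ne_zero
      · exact hϖ1
      · exact hϖ2
      · exact one_ne_zero)
    (3 * C + 1) (ε / 2) (by linarith) (by positivity) N hN
    (fun t => ![fun i => (u t).factorization (gS S i), fun _ => 0, fun _ => 0,
      fun i => (D t).factorization (gS S i)]) κ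
    (fun t => B4 (u t) (D t) (G.T ^ κ t))
    (by
      intro t
      refine ⟨?_, ?_⟩
      · intro h0
        rw [det_B4] at h0
        rcases mul_eq_zero.1 h0 with h1 | h1
        · rcases mul_eq_zero.1 h1 with h1 | h1
          · have := (hu t).1.1
            omega
          · have := (hD t).1.1
            omega
        · have := G.det_pow (κ t)
          rw [h1] at this
          simp at this
          have h3 : (0 : ℝ) < (p : ℝ) ^ (G.h * κ t) := by positivity
          rw [← this] at h3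
          exact lt_irrefl _ h3
      · rw [mat4 G Y (t0 - Y) hY hY' (κ t) (u t) (D t)]
        congr 2
        funext l
        have e0 := (hu t).1.mon hS
        have e3 := (hD t).1.mon hS
        fin_cases l
        · show ((u t : ℤ) : O) = 1 ^ κ t * ((mon (gS S)
            (fun i => (u t).factorization (gS S i)) : ℤ) : O)
          rw [e0, one_pow, one_mul]
        · simp [mon]
        · simp [mon]
        · show ((D t : ℤ) : O) = 1 ^ κ t * ((mon (gS S)
            (fun i => (D t).factorization (gS S i)) : ℤ) : O)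
          rw [e3, one_pow, one_mul])
    (fun t => ![(u t : ℝ), 1 + |(Z t : ℝ)|, 1, |(d : ℝ)| * (1 + |a * u t - D t * M t - Z t|)])
    (fun t => ![1, w t 0, w t 1, M t])
    (by
      filter_upwards [hN0] with t ht
      rw [hdet]
      linarith [hκr1 t, hkk t, hlu t, hlD t])
    (by
      refine Eventually.of_forall fun t l => ?_
      have q1 := p1 t
      fin_cases l
      · show (0 : ℝ) < u t
        linarith
      · show (0 : ℝ) < 1 + |(Z t : ℝ)|
        positivity
      · show (0 : ℝ) < 1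
        norm_num
      · show (0 : ℝ) < |(d : ℝ)| * (1 + |a * u t - D t * M t - Z t|)
        positivity)
    (by
      filter_upwards [hN0, hN.eventually_ge_atTop |Real.log (|(d : ℝ)|)|] with t ht hlc l
      have hCN : 0 ≤ C * N t := mul_nonneg hC ht
      have hεN : 0 ≤ ε * N t := mul_nonneg hε.le ht
      obtain ⟨q1, q2, q3⟩ := hlZ t
      have q4 := hkk t
      have q5 := hlu t
      have q6 := hlD t
      fin_cases l
      · show |Real.log (u t)| ≤ _
        rw [abs_of_nonneg q5.1]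
        linarith
      · show |Real.log (1 + |(Z t : ℝ)|)| ≤ _
        rw [abs_of_nonneg q1]
        linarith
      · show |Real.log 1| ≤ _
        rw [Real.log_one, abs_zero]
        linarith
      · show |Real.log (|(d : ℝ)| * (1 + |a * u t - D t * M t - Z t|))| ≤ _
        rw [Real.log_mul hdp.ne' (by positivity)]
        refine (abs_add_le _ _).trans ?_
        rw [abs_of_nonneg q2]
        linarith)
    (by
      filter_upwards [hN0, (hN.const_mul_atTop (show 0 < ε / 2 by positivity)).eventually_ge_atTop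
        (|Real.log (|(d : ℝ)|)| + G.h * Real.log p)] with t ht hl
      rw [Fin.sum_univ_four, hdet]
      show Real.log (u t) + Real.log (1 + |(Z t : ℝ)|) +
        Real.log 1 + Real.log (|(d : ℝ)| * (1 + |a * u t - D t * M t - Z t|)) + ε / 2 * N t ≤ _
      rw [Real.log_one, Real.log_mul hdp.ne' (by positivity)]
      have h5 := le_abs_self (Real.log |(d : ℝ)|)
      linarith [(hlZ t).2.2, hκr2 t])
    (by
      intro t h0
      rw [hBz] at h0
      have := congrFun h0 2
      simp at this)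
    (by
      refine Eventually.of_forall fun t l => ?_
      rw [hBz]
      rw [Fin.sum_univ_four]
      fin_cases l
      · show ‖φ ((1 : O) * (((u t : ℤ) : ℤ) : O) + 0 * _ + 0 * _ + 0 * _)‖ ≤ (u t : ℝ)
        simp [hφ]
      · show ‖φ ((0 : O) * _ + 1 * ((Z t : ℤ) : O) + 0 * _ + 0 * _)‖ ≤ 1 + |(Z t : ℝ)|
        rw [one_mul, zero_mul, zero_mul, zero_mul, add_zero, add_zero, zero_add, map_intCast,
          Complex.norm_intCast]
        linarith
      · show ‖φ ((0 : O) * _ + 0 * _ + 1 * ((1 : ℤ) : O) + 0 * _)‖ ≤ 1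
        simp
      · show ‖φ (a' * (((u t : ℤ) : ℤ) : O) + -(d : O) * ((Z t : ℤ) : O) +
            0 * ((1 : ℤ) : O) + -(d : O) * (((D t : ℤ) * M t : ℤ) : O))‖ ≤
            |(d : ℝ)| * (1 + |a * u t - D t * M t - Z t|)
        have e1 : φ (a' * (((u t : ℤ) : ℤ) : O) + -(d : O) * ((Z t : ℤ) : O) +
            0 * ((1 : ℤ) : O) + -(d : O) * (((D t : ℤ) * M t : ℤ) : O)) =
            (((d : ℝ) * (a * u t - D t * M t - Z t) : ℝ) : ℂ) := by
          rw [map_add, map_add, map_add, map_mul, map_mul, map_mul, map_mul, map_zero, map_neg,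
            hφ a']
          simp only [map_intCast]
          show (d : ℂ) * (a : ℂ) * _ + _ + _ + _ = _
          push_cast
          ring
        rw [e1, Complex.norm_real, Real.norm_eq_abs, abs_mul]
        refine mul_le_mul_of_nonneg_left ?_ hdp.le
        linarith)
  refine ⟨r, hr, hfr.mono fun t ht => ?_⟩
  rw [hBz, Fin.sum_univ_four] at ht
  simpa using ht

end Pool.Agent.U773.PA
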