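import Mathlib
import Pool.Agent.U773.PA.RelA
import Pool.Agent.U773.BD.Core2

/-! The main inequality with a real and a quadratic `p`-adic number. -/

set_option autoImplicit false

open Finset Filter Topology

namespace Pool.Agent.U773.PA

open Pool.Agent.TH419.WI Pool.Agent.U773.BD Pool.Agent.U773.WN
  Pool.Agent.U773.RS Pool.Agent.N671.OPN Pool.Agent.U773.SF

variable {p : ℕ} [Fact p.Prime] {y : ℤ_[p]} {t0 n0 : ℤ}

lemma disc_ne (hroot : ∀ z : ℤ, z ^ 2 ≠ t0 * z - n0) : t0 ^ 2 - 4 * n0 ≠ 0 := by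
  intro h
  have h1 : Even t0 := by
    by_contra hodd
    rw [Int.not_even_iff_odd] at hodd
    obtain ⟨m, hm⟩ := hodd
    rw [hm] at h
    ring_nf at h
    omega
  obtain ⟨m, hm⟩ := h1
  apply hroot m
  rw [hm] at h ⊢
  have : 4 * (m ^ 2 - n0) = 0 := by linear_combination h
  have h2 : m ^ 2 - n0 = 0 := by omega
  linear_combination -h2

lemma dvd_bdd {c : ℤ_[p]} (hc : c ≠ 0) {k : ℕ} (h : (p : ℤ_[p]) ^ k ∣ c) : k ≤ c.valuation :=
  (PadicInt.mem_span_pow_iff_le_valuation c hc k).1 (Ideal.mem_span_singleton.2 h)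

/-- Ridout's theorem for a quadratic `p`-adic integer -/
theorem rid (G : Gen p y t0 n0) (hy : y ^ 2 = t0 * y - n0)
    (hroot : ∀ z : ℤ, z ^ 2 ≠ t0 * z - n0) (C ε : ℝ) (hC : 0 ≤ C) (hε : 0 < ε) :
    ∃ U : ℕ, ∀ N : ℕ, U ≤ N → ∀ (k : ℕ) (Z : ℤ), (p : ℝ) ^ k ≤ Real.exp (C * N) →
      (p : ℤ_[p]) ^ k ∣ (Z : ℤ_[p]) - y → (p : ℝ) ^ k * Real.exp (-(ε * N)) < 1 + |(Z : ℝ)| := by
  classical
  by_contra hcon
  push Not at hcon
  choose N hNU k Z hk hdiv hsm using hcon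
  have hN : Tendsto N atTop atTop := tendsto_atTop_mono hNU tendsto_id
  have hNR : Tendsto (fun t => (N t : ℝ)) atTop atTop := tendsto_natCast_atTop_atTop.comp hN
  obtain ⟨r, hr, hfr⟩ := relC G hy (disc_ne hroot) C ε hC hε (fun t => (N t : ℝ)) hNR k Z hk hdiv
    hsm
  have hyne : ∀ z : ℤ, (z : ℤ_[p]) - y ≠ 0 := by
    intro z hz
    have h1 : y = z := by linear_combination -hz
    apply hroot z
    rw [h1] at hy
    exact_mod_cast hy
  have hr0 : r 0 ≠ 0 := by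
    intro h0
    obtain ⟨t, ht⟩ := hfr.exists
    rw [h0, zero_mul, zero_add] at ht
    apply hr
    funext i
    fin_cases i
    · exact h0
    · exact ht
  obtain ⟨t1, ht1⟩ := hfr.exists
  have hZc : ∀ t, r 0 * Z t + r 1 = 0 → Z t = Z t1 := by
    intro t ht
    apply mul_left_cancel₀ hr0
    linarith
  have hp1 : (1 : ℝ) < p := by exact_mod_cast (Fact.out : p.Prime).one_lt
  obtain ⟨t, ht, ht2⟩ := (hfr.and_eventually ((hNR.const_mul_atTop hε).eventually_gt_atTop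
    ((((Z t1 : ℤ_[p]) - y).valuation : ℝ) * Real.log p))).exists
  have h1 := hdiv t
  rw [hZc t ht] at h1
  have h2 := dvd_bdd (hyne _) h1
  have h3 : 1 ≤ (p : ℝ) ^ k t * Real.exp (-(ε * N t)) := by
    have := hsm t
    linarith [abs_nonneg (Z t : ℝ)]
  have h4 : Real.exp (ε * N t) ≤ (p : ℝ) ^ k t := by
    rw [Real.exp_neg, ← div_eq_mul_inv, le_div_iff₀ (Real.exp_pos _), one_mul] at h3
    exact h3
  have h5 := Real.log_le_log (Real.exp_pos _) h4
  rw [Real.log_exp, Real.log_pow] at h5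
  have h6 : (k t : ℝ) * Real.log p ≤ (((Z t1 : ℤ_[p]) - y).valuation : ℝ) * Real.log p :=
    mul_le_mul_of_nonneg_right (by exact_mod_cast h2) (Real.log_pos hp1).le
  linarith

/-- a bounded sequence of units contradicts growth; constant relations -/
lemma no_const {N : ℕ → ℕ} (hN : Tendsto N atTop atTop) {u : ℕ → ℕ} {c : ℝ} (hc : 0 < c)
    (hu : ∀ᶠ t in atTop, Real.exp (c * N t) ≤ u t) (s0 s2 : ℤ) (hs : s0 ≠ 0) :
    ¬ ∃ᶠ t in atTop, s0 * u t + s2 = 0 := by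
  intro hfr
  have hNR : Tendsto (fun t => (N t : ℝ)) atTop atTop := tendsto_natCast_atTop_atTop.comp hN
  obtain ⟨t1, ht1⟩ := hfr.exists
  have hbig : ∀ᶠ t in atTop, (u t1 : ℝ) < Real.exp (c * N t) :=
    (Real.tendsto_exp_atTop.comp (hNR.const_mul_atTop hc)).eventually_gt_atTop _
  obtain ⟨t, ht, h1, h2⟩ := (hfr.and_eventually (hu.and hbig)).exists
  have h3 : (u t : ℤ) = u t1 := by
    apply mul_left_cancel₀ hs
    linarith
  have h4 : (u t : ℝ) = u t1 := by exact_mod_cast h3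
  linarith

/-- a linear form which is a multiple of `u` -/
lemma no_small {N : ℕ → ℕ} (hN : Tendsto N atTop atTop) {u : ℕ → ℕ} (hu : ∀ t, 0 < u t)
    {c : ℝ} (hc : 0 < c) {F : ℕ → ℝ} (hF : ∀ᶠ t in atTop, F t ≤ u t * Real.exp (-(c * N t)))
    (a K : ℝ) (ha : a ≠ 0) (hK : 0 ≤ K) : ¬ ∃ᶠ t in atTop, |a| * u t ≤ K * F t := by
  intro hfr
  have ha' : 0 < |a| := abs_pos.2 ha
  obtain ⟨t, ht, h1, h2⟩ := (hfr.and_eventually (hF.and (ev_small hc hN ((K + 1) / |a|)))).exists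
  have hu0 : (0 : ℝ) < u t := by exact_mod_cast hu t
  have e0 : 0 < Real.exp (-(c * N t)) := Real.exp_pos _
  have h3 : |a| * u t ≤ (K * Real.exp (-(c * N t))) * u t :=
    ht.trans ((mul_le_mul_of_nonneg_left h1 hK).trans (le_of_eq (by ring)))
  have h4 := le_of_mul_le_mul_right h3 hu0
  rw [div_le_iff₀ ha'] at h2
  have h5 : |a| * Real.exp (c * N t) ≤ K := by
    have h6 := mul_le_mul_of_nonneg_right h4 (Real.exp_pos (c * N t)).le
    rw [mul_assoc, ← Real.exp_add] at h6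
    simpa using h6
  linarith

end Pool.Agent.U773.PA
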