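import Mathlib
import Pool.Agent.U773.PA.Core

/-! The main inequality with a real and a quadratic `p`-adic number. -/

set_option autoImplicit false

open Finset Filter Topology

namespace Pool.Agent.U773.PA

open Pool.Agent.TH419.WI Pool.Agent.U773.BD Pool.Agent.U773.WN
  Pool.Agent.U773.RS Pool.Agent.N671.OPN Pool.Agent.U773.SF

variable {p : ℕ} [Fact p.Prime] {y : ℤ_[p]} {t0 n0 : ℤ}

theorem mainP (G : Gen p y t0 n0) (hy : y ^ 2 = t0 * y - n0)
    (hroot : ∀ z : ℤ, z ^ 2 ≠ t0 * z - n0) {x : ℝ} (hx : IsAlgebraic ℚ x) (hxi : Irrational x)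
    {S : Finset ℕ} (hS : ∀ p ∈ S, p.Prime) (C ε : ℝ) (hC : 0 ≤ C) (hε : 0 < ε) :
    ∃ U : ℕ, ∀ N : ℕ, U ≤ N → ∀ (u D k : ℕ) (M Z : ℤ), SU S u → SU S D →
      (u : ℝ) ≤ Real.exp (C * N) → (D : ℝ) ≤ Real.exp (C * N) →
      (p : ℝ) ^ k ≤ Real.exp (C * N) → (p : ℤ_[p]) ^ k ∣ (Z : ℤ_[p]) - y →
      min (D : ℝ) u * (p : ℝ) ^ k * Real.exp (-(ε * N)) <
        (1 + |x * u - D * M - Z|) * (1 + |(Z : ℝ)|) := by
  classical
  by_contra hcon
  push Not at hcon
  choose N0 hNU u0 D0 k0 M0 Z0 hu0 hD0 huC0 hDC0 hk0 hdiv0 hsm0 using hcon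
  have hN0 : Tendsto N0 atTop atTop := tendsto_atTop_mono hNU tendsto_id
  have hNR0 : Tendsto (fun t => (N0 t : ℝ)) atTop atTop := tendsto_natCast_atTop_atTop.comp hN0
  obtain ⟨ℓ, hℓx, hℓ1⟩ := exists_fun_irr hxi
  obtain ⟨r, hr, hfr0⟩ := relA G hy (disc_ne hroot) hS hx C ε hC hε (fun t => (N0 t : ℝ)) hNR0
    u0 D0 k0 M0 Z0 (fun t => ⟨hu0 t, huC0 t⟩) (fun t => ⟨hD0 t, hDC0 t⟩) hk0 hdiv0 (by
      intro t
      refine (hsm0 t).trans ?_
      refine mul_le_mul_of_nonneg_right ?_ (Real.exp_pos _).le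
      exact mul_le_mul_of_nonneg_right (min_le_left _ _) (by positivity))
  obtain ⟨ψ, hψ, hrel⟩ := extraction_of_frequently_atTop hfr0
  have hψt : Tendsto ψ atTop atTop := hψ.tendsto_atTop
  -- the subsequence
  set N : ℕ → ℕ := fun t => N0 (ψ t) with hNdef
  set u : ℕ → ℕ := fun t => u0 (ψ t) with hudef
  set D : ℕ → ℕ := fun t => D0 (ψ t) with hDdef
  set k : ℕ → ℕ := fun t => k0 (ψ t) with hkdef
  set M : ℕ → ℤ := fun t => M0 (ψ t) with hMdef
  set Z : ℕ → ℤ := fun t => Z0 (ψ t) with hZdef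
  have hN : Tendsto N atTop atTop := hN0.comp hψt
  have hu : ∀ t, SU S (u t) ∧ (u t : ℝ) ≤ Real.exp (C * N t) := fun t => ⟨hu0 _, huC0 _⟩
  have hD : ∀ t, SU S (D t) ∧ (D t : ℝ) ≤ Real.exp (C * N t) := fun t => ⟨hD0 _, hDC0 _⟩
  have hk : ∀ t, (p : ℝ) ^ k t ≤ Real.exp (C * N t) := fun t => hk0 _
  have hdiv : ∀ t, (p : ℤ_[p]) ^ k t ∣ (Z t : ℤ_[p]) - y := fun t => hdiv0 _
  set L : ℕ → ℝ := fun t => x * u t - D t * M t - Z t with hLdef
  have hsm : ∀ t, (1 + |L t|) * (1 + |(Z t : ℝ)|) ≤
      min (D t : ℝ) (u t) * (p : ℝ) ^ k t * Real.exp (-(ε * N t)) := fun t => hsm0 _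
  have hrel' : ∀ t, r 0 * u t + r 1 * Z t + r 2 + r 3 * (D t * M t) = 0 := fun t => hrel t
  clear_value N u D k M Z
  have hNR : Tendsto (fun t => (N t : ℝ)) atTop atTop := tendsto_natCast_atTop_atTop.comp hN
  have hp1 : (1 : ℝ) < p := by exact_mod_cast (Fact.out : p.Prime).one_lt
  have hu1 : ∀ t, (1 : ℝ) ≤ u t := fun t => by exact_mod_cast (hu t).1.1
  have hD1 : ∀ t, (1 : ℝ) ≤ D t := fun t => by exact_mod_cast (hD t).1.1
  -- the size of the linear form
  obtain ⟨U1, hU1⟩ := rid G hy hroot C (ε / 4) hC (by positivity)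
  have hL : ∀ᶠ t in atTop, 1 + |L t| ≤ min (D t : ℝ) (u t) * Real.exp (-(3 * ε / 4 * N t)) := by
    filter_upwards [hN.eventually_ge_atTop U1] with t ht
    have h1 := hU1 (N t) ht (k t) (Z t) (hk t) (hdiv t)
    have h2 := hsm t
    have h3 : (0 : ℝ) < (p : ℝ) ^ k t := by positivity
    have h4 : (1 + |L t|) * ((p : ℝ) ^ k t * Real.exp (-(ε / 4 * N t))) ≤
        min (D t : ℝ) (u t) * (p : ℝ) ^ k t * Real.exp (-(ε * N t)) :=
      (mul_le_mul_of_nonneg_left h1.le (by positivity)).trans h2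
    have h5 : Real.exp (-(ε * N t)) = Real.exp (-(3 * ε / 4 * N t)) *
        Real.exp (-(ε / 4 * N t)) := by
      rw [← Real.exp_add]
      congr 1
      ring
    rw [h5] at h4
    have h6 : (0 : ℝ) < (p : ℝ) ^ k t * Real.exp (-(ε / 4 * N t)) := by positivity
    refine le_of_mul_le_mul_right (h4.trans (le_of_eq (by ring))) h6
  have hLu : ∀ᶠ t in atTop, 1 + |L t| ≤ u t * Real.exp (-(3 * ε / 4 * N t)) := by
    filter_upwards [hL] with t ht
    exact ht.trans (mul_le_mul_of_nonneg_right (min_le_right _ _) (Real.exp_pos _).le)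
  have hubig : ∀ᶠ t in atTop, Real.exp (3 * ε / 4 * N t) ≤ u t := by
    filter_upwards [hLu] with t ht
    have h1 : 1 ≤ u t * Real.exp (-(3 * ε / 4 * N t)) := by linarith [abs_nonneg (L t)]
    rwa [Real.exp_neg, ← div_eq_mul_inv, le_div_iff₀ (Real.exp_pos _), one_mul] at h1
  have hnoconst : ∀ s0 s2 : ℤ, s0 ≠ 0 → ¬ ∃ᶠ t in atTop, s0 * u t + s2 = 0 := fun s0 s2 hs =>
    no_const hN (by positivity : 0 < 3 * ε / 4) hubig s0 s2 hs
  have hnosmall : ∀ a K : ℝ, a ≠ 0 → 0 ≤ K → ¬ ∃ᶠ t in atTop, |a| * u t ≤ K * (1 + |L t|) :=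
    fun a K ha hK => no_small hN (fun t => (hu t).1.1) (by positivity : 0 < 3 * ε / 4) hLu a K ha hK
  have hirr : ∀ a b : ℤ, a ≠ 0 → (a : ℝ) * x + b ≠ 0 := by
    intro a b ha h
    have h1 : ℓ ((a : ℝ) * x + b) = 0 := by rw [h, map_zero]
    have h2 : ℓ (b : ℝ) = 0 := by
      have := fun_int ℓ b 1
      rw [mul_one] at this
      rw [this, hℓ1, mul_zero]
    rw [map_add, fun_int, hℓx, mul_one, h2, add_zero] at h1
    exact ha (by exact_mod_cast h1)
  have hLt : ∀ t, L t = x * u t - D t * M t - Z t := fun t => rfl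
  have hrR : ∀ t, (r 0 : ℝ) * u t + r 1 * Z t + r 2 + r 3 * (D t * M t) = 0 := fun t => by
    exact_mod_cast hrel' t
  by_cases h3 : r 3 = 0
  · by_cases h1 : r 1 = 0
    · have h0 : ∀ t, r 0 * u t + r 2 = 0 := fun t => by
        have := hrel' t
        rw [h3, h1] at this
        linarith
      by_cases h00 : r 0 = 0
      · have h2 : r 2 = 0 := by
          have := h0 0
          rw [h00] at this
          linarith
        apply hr
        funext i
        fin_cases i
        · exact h00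
        · exact h1
        · exact h2
        · exact h3
      · exact hnoconst _ _ h00 (Frequently.of_forall h0)
    · -- `Z` is a combination of `u` and `1`
      have hmain := main_two hS C (ε / 4) (by positivity) N hN u u D (fun t => r 1 * M t) hu hu hD
        ((r 1 : ℝ) * x + r 0) 0 (by
          refine IsAlgebraic.add (IsAlgebraic.mul ?_ hx) ?_
          · exact isAlgebraic_int _
          · exact isAlgebraic_int _) isAlgebraic_zero ℓ hℓ1
      have hℓv : ℓ ((r 1 : ℝ) * x + r 0) = r 1 := by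
        have h2 : ℓ (r 0 : ℝ) = 0 := by
          have := fun_int ℓ (r 0) 1
          rw [mul_one] at this
          rw [this, hℓ1, mul_zero]
        rw [map_add, fun_int, hℓx, mul_one, h2, add_zero]
      rw [hℓv] at hmain
      have hr1 : (1 : ℝ) ≤ |(r 1 : ℝ)| := by exact_mod_cast Int.one_le_abs h1
      set K : ℝ := |(r 1 : ℝ)| + |(r 2 : ℝ)| with hK
      have hK0 : 0 ≤ K := by positivity
      obtain ⟨t, g1, g2, g3⟩ := (hmain.and (hL.and (ev_small (show 0 < ε / 2 by positivity) hN
        (K + 1)))).exists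
      have hm1 : min (D t : ℝ) (u t) ≤ min (D t : ℝ) |((r 1 : ℚ) : ℝ) * u t +
          ((ℓ 0 : ℚ) : ℝ) * u t| := by
        refine min_le_min le_rfl ?_
        rw [map_zero, Rat.cast_zero, zero_mul, add_zero, Rat.cast_intCast, abs_mul,
          abs_of_nonneg (by linarith [hu1 t] : (0 : ℝ) ≤ u t)]
        exact le_mul_of_one_le_left (by linarith [hu1 t]) hr1
      have hval : ((r 1 : ℝ) * x + r 0) * u t + 0 * u t - D t * ((r 1 * M t : ℤ) : ℝ) =
          r 1 * L t - r 2 := by
        have := hrR t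
        rw [h3] at this
        rw [hLt]
        push_cast
        push_cast at this
        linear_combination this
      rw [hval] at g1
      have hle : |(r 1 : ℝ) * L t - r 2| ≤ K * (1 + |L t|) := by
        refine (abs_sub _ _).trans ?_
        rw [abs_mul, hK]
        nlinarith [abs_nonneg (L t), abs_nonneg (r 1 : ℝ), abs_nonneg (r 2 : ℝ),
          mul_nonneg (abs_nonneg (r 2 : ℝ)) (abs_nonneg (L t))]
      have hmin0 : 0 < min (D t : ℝ) (u t) := lt_min (by linarith [hD1 t]) (by linarith [hu1 t])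
      have e1 : min (D t : ℝ) (u t) * Real.exp (-(ε / 4 * N t)) ≤
          K * (min (D t : ℝ) (u t) * Real.exp (-(3 * ε / 4 * N t))) := by
        refine (mul_le_mul_of_nonneg_right hm1 (Real.exp_pos _).le).trans (g1.trans (hle.trans ?_))
        exact mul_le_mul_of_nonneg_left g2 hK0
      have e2 : Real.exp (-(3 * ε / 4 * N t)) = Real.exp (-(ε / 2 * N t)) *
          Real.exp (-(ε / 4 * N t)) := by
        rw [← Real.exp_add]
        congr 1
        ring
      rw [e2] at e1
      have e3 : (1 : ℝ) ≤ K * Real.exp (-(ε / 2 * N t)) := by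
        have h6 : 0 < min (D t : ℝ) (u t) * Real.exp (-(ε / 4 * N t)) := by positivity
        refine le_of_mul_le_mul_right (a := min (D t : ℝ) (u t) * Real.exp (-(ε / 4 * N t)))
          ?_ h6
        linarith
      rw [Real.exp_neg, ← div_eq_mul_inv, le_div_iff₀ (Real.exp_pos _), one_mul] at e3
      linarith
  · -- `D M` is a combination of `u`, `Z` and `1`
    set a : ℝ := (r 3 : ℝ) * x + r 0 with ha
    have ha0 : a ≠ 0 := hirr _ _ h3
    set b : ℤ := r 1 - r 3 with hb
    set K : ℝ := |(r 3 : ℝ)| + |(r 2 : ℝ)| with hK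
    have hK0 : 0 ≤ K := by positivity
    have hval : ∀ t, a * u t + b * Z t = r 3 * L t - r 2 := fun t => by
      have := hrR t
      rw [hLt, ha, hb]
      push_cast
      linear_combination this
    have hle : ∀ t, |a * u t + b * Z t| ≤ K * (1 + |L t|) := fun t => by
      rw [hval]
      refine (abs_sub _ _).trans ?_
      rw [abs_mul, hK]
      nlinarith [abs_nonneg (L t), abs_nonneg (r 3 : ℝ), abs_nonneg (r 2 : ℝ),
        mul_nonneg (abs_nonneg (r 2 : ℝ)) (abs_nonneg (L t))]
    by_cases hb0 : b = 0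
    · refine hnosmall a K ha0 hK0 (Frequently.of_forall fun t => ?_)
      have := hle t
      rw [hb0, Int.cast_zero, zero_mul, add_zero, abs_mul,
        abs_of_nonneg (by linarith [hu1 t] : (0 : ℝ) ≤ u t)] at this
      exact this
    · -- three variables
      obtain ⟨T, hT⟩ := eventually_atTop.1 (ev_small (show 0 < ε / 2 by positivity) hN (K + 1))
      obtain ⟨s, hs, hfs⟩ := relB G hy (disc_ne hroot) hS (a := a) (by
          refine IsAlgebraic.add (IsAlgebraic.mul ?_ hx) ?_
          · exact isAlgebraic_int _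
          · exact isAlgebraic_int _) ha0 b C (ε / 2) hC (by positivity)
        (fun t => (N (t + T) : ℝ)) (hNR.comp (tendsto_add_atTop_nat T)) (fun t => u (t + T))
        (fun t => k (t + T)) (fun t => Z (t + T)) (fun t => hu _) (fun t => hk _)
        (fun t => hdiv _) (by
          intro t
          have g1 := hle (t + T)
          have g2 := hsm (t + T)
          have g3 := hT (t + T) (Nat.le_add_left _ _)
          set q := t + T
          have g4 : 1 + |a * u q + b * Z q| ≤ (K + 1) * (1 + |L q|) := by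
            nlinarith [abs_nonneg (L q)]
          have g5 : (1 + |a * u q + b * Z q|) * (1 + |(Z q : ℝ)|) ≤
              (K + 1) * (min (D q : ℝ) (u q) * (p : ℝ) ^ k q * Real.exp (-(ε * N q))) := by
            calc (1 + |a * u q + b * Z q|) * (1 + |(Z q : ℝ)|)
                ≤ ((K + 1) * (1 + |L q|)) * (1 + |(Z q : ℝ)|) :=
                  mul_le_mul_of_nonneg_right g4 (by positivity)
              _ = (K + 1) * ((1 + |L q|) * (1 + |(Z q : ℝ)|)) := by ring
              _ ≤ _ := mul_le_mul_of_nonneg_left g2 (by linarith)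
          refine g5.trans ?_
          have g6 : (K + 1) * (min (D q : ℝ) (u q) * (p : ℝ) ^ k q * Real.exp (-(ε * N q))) ≤
              Real.exp (ε / 2 * N q) * (u q * (p : ℝ) ^ k q * Real.exp (-(ε * N q))) := by
            refine mul_le_mul g3 ?_ (by have := hD1 q; have := hu1 q; positivity)
              (Real.exp_pos _).le
            refine mul_le_mul_of_nonneg_right ?_ (Real.exp_pos _).le
            exact mul_le_mul_of_nonneg_right (min_le_right _ _) (by positivity)
          refine g6.trans (le_of_eq ?_)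
          have g7 : Real.exp (-(ε / 2 * N q)) = Real.exp (ε / 2 * N q) * Real.exp (-(ε * N q)) := by
            rw [← Real.exp_add]
            congr 1
            ring
          rw [g7]
          ring)
      have hfs' : ∃ᶠ t in atTop, s 0 * u t + s 1 * Z t + s 2 = 0 :=
        (tendsto_add_atTop_nat T).frequently hfs
      by_cases hs1 : s 1 = 0
      · by_cases hs0 : s 0 = 0
        · obtain ⟨t, ht⟩ := hfs'.exists
          rw [hs0, hs1, zero_mul, zero_mul, zero_add, zero_add] at ht
          apply hs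
          funext i
          fin_cases i
          · exact hs0
          · exact hs1
          · exact ht
        · refine hnoconst (s 0) (s 2) hs0 (hfs'.mono fun t ht => ?_)
          rw [hs1] at ht
          linarith
      · set c : ℝ := (s 1 : ℝ) * a - b * s 0 with hc
        have hc0 : c ≠ 0 := by
          have e1 : c = ((s 1 * r 3 : ℤ) : ℝ) * x + ((s 1 * r 0 - b * s 0 : ℤ) : ℝ) := by
            rw [hc, ha]
            push_cast
            ring
          rw [e1]
          exact hirr _ _ (mul_ne_zero hs1 h3)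
        refine hnosmall c (|(s 1 : ℝ)| * K + |(b : ℝ) * s 2|) hc0 (by positivity)
          (hfs'.mono fun t ht => ?_)
        have htR : (s 0 : ℝ) * u t + s 1 * Z t + s 2 = 0 := by exact_mod_cast ht
        have e2 : c * u t = s 1 * (a * u t + b * Z t) + b * s 2 := by
          rw [hc]
          linear_combination (-(b : ℝ)) * htR
        have e3 : |c| * u t = |s 1 * (a * u t + b * Z t) + b * s 2| := by
          rw [← e2, abs_mul, abs_of_nonneg (by linarith [hu1 t] : (0 : ℝ) ≤ u t)]
        rw [e3]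
        refine (abs_add_le _ _).trans ?_
        rw [abs_mul]
        have e4 := mul_le_mul_of_nonneg_left (hle t) (abs_nonneg (s 1 : ℝ))
        nlinarith [abs_nonneg ((b : ℝ) * s 2), abs_nonneg (L t),
          mul_nonneg (abs_nonneg ((b : ℝ) * s 2)) (abs_nonneg (L t))]

end Pool.Agent.U773.PA
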