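import Mathlib
import Pool.Agent.U773.PA.MainP
import Pool.Agent.U773.PA.Exist
import Pool.Agent.U773.BD.Final2

/-! Blocks of digits of a real algebraic number and of a quadratic `p`-adic number. -/

set_option autoImplicit false

open Finset Filter Topology

namespace Pool.Agent.U773.PA

open Pool.Agent.TH419.WI Pool.Agent.U773.BD Pool.Agent.U773.WN
  Pool.Agent.U773.RS Pool.Agent.N671.OPN Pool.Agent.U773.SF

variable {p : ℕ} [hp : Fact p.Prime] {y : ℤ_[p]} {t0 n0 : ℤ}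

lemma appr_dvd (y : ℤ_[p]) (k : ℕ) : (p : ℤ_[p]) ^ k ∣ (((y.appr k : ℕ) : ℤ) : ℤ_[p]) - y := by
  have := PadicInt.appr_spec k y
  rw [Ideal.mem_span_singleton] at this
  rw [← dvd_neg, neg_sub]
  exact_mod_cast this

theorem final_padic (hy : y ^ 2 = t0 * y - n0) (hroot : ∀ z : ℤ, z ^ 2 ≠ t0 * z - n0)
    (hΔ : ¬ (p : ℤ) ∣ t0 ^ 2 - 4 * n0) {x : ℝ} (hx : IsAlgebraic ℚ x) (hxi : Irrational x)
    {S : Finset ℕ} (hS : ∀ p ∈ S, p.Prime) (C ε : ℝ) (hε : 0 < ε) :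
    ∃ U : ℕ, ∀ N : ℕ, U ≤ N → ∀ (u D n m : ℕ), SU S u → SU S D → D ≤ u →
      (u : ℝ) ≤ Real.exp (C * N) → (p : ℝ) ^ (n + m) ≤ Real.exp (C * N) →
      max (D : ℝ) ((p : ℝ) ^ m) * Real.exp (-(ε * N)) ≤
        1 + |((res u D x : ℤ) : ℝ) - ((y.appr (n + m) / p ^ n : ℕ) : ℝ)| := by
  classical
  obtain ⟨G⟩ := gen_exists hy hroot hΔ
  set S' : Finset ℕ := insert p S with hS'
  have hS'p : ∀ q ∈ S', q.Prime := by
    intro q hq
    rcases Finset.mem_insert.1 hq with h | h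
    · rw [h]; exact hp.out
    · exact hS q h
  have hp0 : 0 < p := hp.out.pos
  have hpR : (1 : ℝ) ≤ p := by exact_mod_cast hp.out.one_lt.le
  obtain ⟨U1, hU1⟩ := mainP G hy hroot hx hxi hS'p (2 * |C|) (ε / 4) (by positivity) (by positivity)
  obtain ⟨U2, hU2⟩ := rid G hy hroot |C| (ε / 4) (by positivity) (by positivity)
  obtain ⟨U3, hU3⟩ := eventually_atTop.1 (ev_small (show 0 < ε / 4 by positivity) tendsto_id 7)
  refine ⟨U1 + U2 + U3, fun N hN u D n m hu hD hDu huC hpC => ?_⟩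
  have hC1 : Real.exp (C * N) ≤ Real.exp (|C| * N) :=
    Real.exp_le_exp.2 (mul_le_mul_of_nonneg_right (le_abs_self C) (Nat.cast_nonneg _))
  have hexp7 : (7 : ℝ) ≤ Real.exp (ε / 4 * N) := by
    have := hU3 N (by omega)
    simpa using this
  set k : ℕ := n + m with hk
  set Zn : ℕ := y.appr k with hZn
  set V : ℕ := Zn / p ^ n with hV
  set Y : ℕ := Zn % p ^ n with hY
  have hZV : Zn = p ^ n * V + Y := (Nat.div_add_mod _ _).symm
  have hYlt : Y < p ^ n := Nat.mod_lt _ (pow_pos hp0 _)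
  have hZlt : Zn < p ^ k := PadicInt.appr_lt y k
  obtain ⟨a1, a2⟩ := res_spec hD.1 u x
  set W : ℤ := res u D x with hW
  set M : ℤ := ⌊(u : ℝ) * x⌋ / (D : ℤ) with hM
  set q : ℕ := p ^ n with hq
  have hq0 : (0 : ℝ) < q := by
    have : 0 < q := pow_pos hp0 _
    exact_mod_cast this
  have hq1 : (1 : ℝ) ≤ q := by
    have : 0 < q := pow_pos hp0 _
    exact_mod_cast this
  have hqk : ((q : ℕ) : ℝ) ≤ (p : ℝ) ^ k := by
    rw [hq]
    push_cast
    exact pow_le_pow_right₀ hpR (by omega)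
  have hSUq : ∀ v : ℕ, SU S v → SU S' (v * q) := by
    intro v hv
    refine ⟨Nat.mul_pos hv.1 (pow_pos hp0 _), fun r hr hd => ?_⟩
    rcases (hr.dvd_mul).1 hd with h | h
    · exact Finset.mem_insert_of_mem (hv.2 r hr h)
    · have := (Nat.prime_dvd_prime_iff_eq hr hp.out).1 (hr.dvd_of_dvd_pow h)
      rw [this]
      exact Finset.mem_insert_self _ _
  have hsize : ∀ v : ℕ, (v : ℝ) ≤ Real.exp (C * N) → ((v * q : ℕ) : ℝ) ≤ Real.exp (2 * |C| * N) := by
    intro v hv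
    push_cast
    calc (v : ℝ) * q ≤ Real.exp (|C| * N) * Real.exp (|C| * N) :=
          mul_le_mul (hv.trans hC1) ((hqk.trans hpC).trans hC1) hq0.le (Real.exp_pos _).le
      _ = _ := by rw [← Real.exp_add]; congr 1; ring
  have hDC : (D : ℝ) ≤ Real.exp (C * N) := le_trans (by exact_mod_cast hDu) huC
  have hD1 : (1 : ℝ) ≤ D := by exact_mod_cast hD.1
  set F : ℝ := 1 + |(W : ℝ) - (V : ℝ)| with hF
  have hF1 : 1 ≤ F := by rw [hF]; linarith [abs_nonneg ((W : ℝ) - V)]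
  have hpk0 : (0 : ℝ) < (p : ℝ) ^ k := by positivity
  have h1 := hU1 N (by omega) (u * q) (D * q) k M (Zn : ℤ) (hSUq u hu) (hSUq D hD)
    (hsize u huC) (hsize D hDC) (hpC.trans (Real.exp_le_exp.2 (by
      have : C * N ≤ |C| * N := mul_le_mul_of_nonneg_right (le_abs_self C) (Nat.cast_nonneg _)
      have h2 : 0 ≤ |C| * N := by positivity
      linarith))) (appr_dvd y k)
  -- the first inequality
  have hLle : 1 + |x * ((u * q : ℕ) : ℝ) - ((D * q : ℕ) : ℝ) * M - ((Zn : ℤ) : ℝ)| ≤ 3 * q * F := by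
    have hZR : ((Zn : ℤ) : ℝ) = q * V + Y := by
      have : (Zn : ℝ) = ((q * V + Y : ℕ) : ℝ) := by exact_mod_cast hZV
      push_cast at this
      simpa using this
    have e1 : x * ((u * q : ℕ) : ℝ) - ((D * q : ℕ) : ℝ) * M - ((Zn : ℤ) : ℝ) =
        q * (x * u - D * M - W) + (q * ((W : ℝ) - V) - Y) := by
      rw [hZR]
      push_cast
      ring
    rw [e1]
    have b1 : |(q : ℝ) * (x * u - D * M - W)| ≤ q := by
      rw [abs_mul, abs_of_pos hq0]
      exact mul_le_of_le_one_right hq0.le a2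
    have b2 : |(q : ℝ) * ((W : ℝ) - V) - Y| ≤ q * |(W : ℝ) - V| + q := by
      refine (abs_sub _ _).trans ?_
      rw [abs_mul, abs_of_pos hq0, abs_of_nonneg (Nat.cast_nonneg Y : (0 : ℝ) ≤ (Y : ℝ))]
      have : (Y : ℝ) ≤ q := by exact_mod_cast hYlt.le
      linarith
    have b3 := abs_add_le ((q : ℝ) * (x * u - D * M - W)) (q * ((W : ℝ) - V) - Y)
    rw [hF]
    nlinarith [mul_nonneg hq0.le (abs_nonneg ((W : ℝ) - V))]
  have hZle : 1 + |((Zn : ℤ) : ℝ)| ≤ (p : ℝ) ^ k := by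
    have : Zn + 1 ≤ p ^ k := hZlt
    have h2 : ((Zn + 1 : ℕ) : ℝ) ≤ ((p ^ k : ℕ) : ℝ) := by exact_mod_cast this
    push_cast at h2
    rw [Int.cast_natCast, abs_of_nonneg (Nat.cast_nonneg _)]
    linarith
  have hA : D * Real.exp (-(ε / 4 * N)) ≤ 3 * F := by
    have h2 : min ((D * q : ℕ) : ℝ) ((u * q : ℕ) : ℝ) = D * q := by
      rw [min_eq_left (by exact_mod_cast Nat.mul_le_mul_right q hDu)]
      push_cast
      ring
    rw [h2] at h1
    have h3 : (D : ℝ) * q * (p : ℝ) ^ k * Real.exp (-(ε / 4 * N)) ≤ (3 * q * F) * (p : ℝ) ^ k :=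
      h1.le.trans (mul_le_mul hLle hZle (by positivity) (by positivity))
    have h4 : (0 : ℝ) < q * (p : ℝ) ^ k := by positivity
    refine le_of_mul_le_mul_right (a := q * (p : ℝ) ^ k) ?_ h4
    linarith
  have e0 : 0 < Real.exp (-(ε * N)) := Real.exp_pos _
  have esplit : ∀ c : ℝ, Real.exp (-(ε * N)) = Real.exp (-(c * N)) * Real.exp (-((ε - c) * N)) := by
    intro c
    rw [← Real.exp_add]
    congr 1
    ring
  have hsmall : ∀ c : ℝ, ε / 4 ≤ c → 7 * Real.exp (-(c * N)) ≤ 1 := by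
    intro c hc
    rw [Real.exp_neg, ← div_eq_mul_inv, div_le_one (Real.exp_pos _)]
    refine hexp7.trans (Real.exp_le_exp.2 ?_)
    exact mul_le_mul_of_nonneg_right hc (Nat.cast_nonneg _)
  have hDF : D * Real.exp (-(ε * N)) ≤ F := by
    rw [esplit (ε / 4), ← mul_assoc]
    have h5 := hsmall (ε - ε / 4) (by linarith)
    calc D * Real.exp (-(ε / 4 * N)) * Real.exp (-((ε - ε / 4) * N))
        ≤ 3 * F * Real.exp (-((ε - ε / 4) * N)) := mul_le_mul_of_nonneg_right hA (Real.exp_pos _).le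
      _ ≤ F := by nlinarith
  rw [max_mul_of_nonneg _ _ e0.le]
  refine max_le hDF ?_
  by_contra hcon
  push Not at hcon
  -- the `p`-adic number would have a long block of zeros
  have h6 := hU2 N (by omega) k (Zn : ℤ) (hpC.trans hC1) (appr_dvd y k)
  set Pm : ℝ := (p : ℝ) ^ m with hPm
  have hPm0 : 0 < Pm := by positivity
  have hDle : (D : ℝ) ≤ 3 * Pm * Real.exp (-(3 * ε / 4 * N)) := by
    have h7 : D * Real.exp (-(ε / 4 * N)) ≤ 3 * (Pm * Real.exp (-(ε * N))) := by linarith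
    have h8 : Real.exp (-(ε * N)) = Real.exp (-(3 * ε / 4 * N)) * Real.exp (-(ε / 4 * N)) := by
      rw [← Real.exp_add]; congr 1; ring
    rw [h8] at h7
    refine le_of_mul_le_mul_right (a := Real.exp (-(ε / 4 * N))) ?_ (Real.exp_pos _)
    linarith
  have hWle : (W : ℝ) ≤ D := (le_abs_self _).trans a1
  have hFle : F ≤ Pm * Real.exp (-(3 * ε / 4 * N)) := by
    refine hcon.le.trans (mul_le_mul_of_nonneg_left ?_ hPm0.le)
    refine Real.exp_le_exp.2 ?_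
    have : 0 ≤ ε * N := by positivity
    linarith
  have hVle : (V : ℝ) + 1 ≤ 4 * Pm * Real.exp (-(3 * ε / 4 * N)) + 0 := by
    have h7 : (V : ℝ) - W ≤ |(W : ℝ) - V| := by
      rw [abs_sub_comm]
      exact le_abs_self _
    have h8 : F = 1 + |(W : ℝ) - V| := hF
    linarith
  have hkm : (p : ℝ) ^ k = q * Pm := by
    rw [hk, pow_add, hq, hPm]
    push_cast
    ring
  have hZ2 : 1 + |((Zn : ℤ) : ℝ)| ≤ 5 * ((p : ℝ) ^ k * Real.exp (-(3 * ε / 4 * N))) := by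
    rw [Int.cast_natCast, abs_of_nonneg (Nat.cast_nonneg _)]
    have h7 : (Zn : ℝ) ≤ q * (V + 1) := by
      have h8 : Zn ≤ q * (V + 1) := by
        rw [mul_add, mul_one]
        omega
      exact_mod_cast h8
    have h9 : (q : ℝ) * (V + 1) ≤ q * (4 * Pm * Real.exp (-(3 * ε / 4 * N))) :=
      mul_le_mul_of_nonneg_left (by linarith) hq0.le
    have h10 : (1 : ℝ) ≤ (p : ℝ) ^ k * Real.exp (-(3 * ε / 4 * N)) := by
      rw [hkm]
      calc (1 : ℝ) ≤ F := hF1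
        _ ≤ Pm * Real.exp (-(3 * ε / 4 * N)) := hFle
        _ ≤ q * (Pm * Real.exp (-(3 * ε / 4 * N))) := le_mul_of_one_le_left (by positivity) hq1
        _ = _ := by ring
    rw [hkm] at h10 ⊢
    linarith
  have h11 : (p : ℝ) ^ k * Real.exp (-(ε / 4 * N)) <
      5 * ((p : ℝ) ^ k * Real.exp (-(3 * ε / 4 * N))) := lt_of_lt_of_le h6 hZ2
  have h12 : Real.exp (-(3 * ε / 4 * N)) = Real.exp (-(ε / 2 * N)) * Real.exp (-(ε / 4 * N)) := by
    rw [← Real.exp_add]; congr 1; ring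
  rw [h12] at h11
  have h13 := hsmall (ε / 2) (by linarith)
  have h14 : (0 : ℝ) < (p : ℝ) ^ k * Real.exp (-(ε / 4 * N)) := by positivity
  nlinarith

/-- real digits against `p`-adic digits -/
theorem final_padic_digits (hy : y ^ 2 = t0 * y - n0) (hroot : ∀ z : ℤ, z ^ 2 ≠ t0 * z - n0)
    (hΔ : ¬ (p : ℤ) ∣ t0 ^ 2 - 4 * n0) {x : ℝ} (hx : IsAlgebraic ℚ x) (hxi : Irrational x)
    {b : ℕ} (hb : 2 ≤ b) (C δ : ℝ) (hδ : 0 < δ) :
    ∃ U : ℕ, ∀ m : ℕ, U ≤ m → ∀ n n' m' : ℕ, (n : ℝ) ≤ C * m → (n' : ℝ) ≤ C * m →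
      (m' : ℝ) ≤ C * m →
      (b : ℝ) ^ ((1 - δ) * (m : ℝ)) ≤
        |(blk b x n m : ℝ) - ((y.appr (n' + m') / p ^ n' : ℕ) : ℝ)| := by
  obtain ⟨ε, hε, U1, hU1⟩ := digits_of hb δ hδ
  have hSp : ∀ q ∈ b.primeFactors, q.Prime := fun q h => Nat.prime_of_mem_primeFactors h
  have hb1 : (1 : ℝ) ≤ b := by exact_mod_cast (by omega : 1 ≤ b)
  have hlb : 0 < Real.log b := Real.log_pos (by exact_mod_cast hb)
  have hp1 : (1 : ℝ) < p := by exact_mod_cast hp.out.one_lt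
  have hlp : 0 < Real.log p := Real.log_pos hp1
  obtain ⟨U2, hU2⟩ := final_padic hy hroot hΔ hx hxi hSp ((2 * |C| + 1) * (Real.log b + Real.log p))
    ε hε
  refine ⟨U1 + U2, fun m hm n n' m' hn hn' hm' => ?_⟩
  have hm0 : (0 : ℝ) ≤ m := Nat.cast_nonneg _
  have hCm : C * m ≤ |C| * m := mul_le_mul_of_nonneg_right (le_abs_self C) hm0
  have hCm0 : 0 ≤ |C| * m := by positivity
  have hpow : ∀ (c : ℕ), 1 < (c : ℝ) → Real.log c ≤ Real.log b + Real.log p → ∀ j : ℕ,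
      (j : ℝ) ≤ (2 * |C| + 1) * m →
      ((c : ℝ)) ^ j ≤ Real.exp ((2 * |C| + 1) * (Real.log b + Real.log p) * m) := by
    intro c hc hlc j hj
    rw [← Real.exp_log (by positivity : (0 : ℝ) < (c : ℝ) ^ j), Real.log_pow]
    apply Real.exp_le_exp.2
    have hl : 0 < Real.log c := Real.log_pos hc
    calc (j : ℝ) * Real.log c ≤ ((2 * |C| + 1) * m) * (Real.log b + Real.log p) :=
          mul_le_mul hj hlc hl.le (by positivity)
      _ = _ := by ring
  have hSU : ∀ j : ℕ, SU b.primeFactors (b ^ j) := fun j =>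
    ⟨by positivity, fun q hq hd => Nat.mem_primeFactors.2
      ⟨hq, hq.dvd_of_dvd_pow hd, by omega⟩⟩
  have h1 := hU2 m (by omega) (b ^ (n + m)) (b ^ m) n' m' (hSU _) (hSU _)
    (Nat.pow_le_pow_right (by omega) (by omega)) (by
      rw [Nat.cast_pow]
      refine hpow b (by exact_mod_cast hb) (by linarith) _ ?_
      push_cast
      linarith) (by
      refine hpow p hp1 (by linarith) _ ?_
      push_cast
      linarith)
  rw [← blk_res] at h1
  refine hU1 m (by omega) (max (((b ^ m : ℕ) : ℝ)) ((p : ℝ) ^ m')) _ ?_ h1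
  refine le_trans (le_of_eq ?_) (le_max_left _ _)
  push_cast
  rfl

/-- there is no square root of `2` in the `2`-adic integers -/
lemma two_ne {y : ℤ_[p]} (hy : y ^ 2 = 2) : ¬ (p : ℤ) ∣ (0 : ℤ) ^ 2 - 4 * (-2) := by
  intro h
  have h8 : (p : ℤ) ∣ 2 ^ 3 := by norm_num at h ⊢; exact h
  have hpp : Prime (p : ℤ) := Nat.prime_iff_prime_int.1 hp.out
  have h2 : (p : ℤ) ∣ 2 := hpp.dvd_of_dvd_pow h8
  have h3 : p = 2 := (Nat.prime_dvd_prime_iff_eq hp.out Nat.prime_two).1 (by exact_mod_cast h2)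
  subst h3
  have hpr : Prime ((2 : ℕ) : ℤ_[2]) := PadicInt.prime_p
  have h4 : ((2 : ℕ) : ℤ_[2]) ∣ y ^ 2 := by
    rw [hy]
    exact_mod_cast dvd_refl _
  obtain ⟨c, hc⟩ := hpr.dvd_of_dvd_pow h4
  have h5 : ((2 : ℕ) : ℤ_[2]) * (((2 : ℕ) : ℤ_[2]) * c ^ 2) = ((2 : ℕ) : ℤ_[2]) * 1 := by
    rw [hc] at hy
    push_cast at hy ⊢
    linear_combination hy
  have h6 := mul_left_cancel₀ hpr.ne_zero h5
  exact hpr.not_isUnit (IsUnit.of_mul_eq_one _ h6)

end Pool.Agent.U773.PA
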